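import Pool.Agent.R211.WN.Win2

/-!
The window criterion in terms of a window of frequencies.
-/

set_option autoImplicit false

open Set Filter Topology MeasureTheory
open scoped ComplexConjugate ENNReal ContDiff

namespace Pool.Agent.R211.WN

open Pool.Agent.H708R2.EulerSign (V Periodic3 Dom divergence grad contDiff_slice)
open Pool.Agent.H708R2.EulerModes
open Pool.Agent.Y302.Trunc (K3 resc resc_per resc_continuous)
open Pool.Agent.Y302.Tri
open Pool.Agent.R211.SV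

/-- The box which contains the ball of radius `R`. -/
noncomputable def box (R : ℝ) : Finset K3 := Fintype.piFinset fun _ : Fin 3 => Finset.Icc (-⌊R⌋) ⌊R⌋

lemma mem_box {R : ℝ} {k : K3} (h : kn k ≤ R) : k ∈ box R := by
  unfold box
  rw [Fintype.mem_piFinset]
  intro j
  have h1 : |(k j : ℝ)| ≤ R := by
    refine le_trans ?_ h
    unfold kn
    refine Real.le_sqrt_of_sq_le ?_
    rw [sq_abs]
    exact Finset.single_le_sum (f := fun j => (k j : ℝ) ^ 2) (fun _ _ => sq_nonneg _)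
      (Finset.mem_univ j)
  have h2 := abs_le.1 h1
  rw [Finset.mem_Icc]
  constructor
  · have : -k j ≤ ⌊R⌋ := Int.le_floor.2 (by push_cast; linarith)
    linarith
  · exact Int.le_floor.2 h2.2

lemma card_box {R : ℝ} (hR : 1 ≤ R) : ((box R).card : ℝ) ≤ 27 * R ^ 3 := by
  unfold box
  rw [Fintype.card_piFinset, Finset.prod_const, Finset.card_univ, Fintype.card_fin, Int.card_Icc]
  have h0 : (0 : ℤ) ≤ ⌊R⌋ := Int.floor_nonneg.2 (by linarith)
  have h1 : ((⌊R⌋ + 1 - -⌊R⌋).toNat : ℝ) ≤ 3 * R := by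
    have h2 : (((⌊R⌋ + 1 - -⌊R⌋).toNat : ℤ) : ℝ) = 2 * (⌊R⌋ : ℝ) + 1 := by
      rw [Int.toNat_of_nonneg (by linarith)]
      push_cast
      ring
    have h3 : ((⌊R⌋ + 1 - -⌊R⌋).toNat : ℝ) = 2 * (⌊R⌋ : ℝ) + 1 := by exact_mod_cast h2
    rw [h3]
    have := Int.floor_le R
    linarith
  push_cast
  calc ((⌊R⌋ + 1 - -⌊R⌋).toNat : ℝ) ^ 3 ≤ (3 * R) ^ 3 :=
        pow_le_pow_left₀ (Nat.cast_nonneg _) h1 3
    _ = _ := by ring

/-- Sums over balls. -/
lemma tsum_ball_le {R : ℝ} (hR : 1 ≤ R) {f : K3 → ℝ} {B : ℝ} (hB : 0 ≤ B) (_hf0 : ∀ k, 0 ≤ f k)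
    (hf : ∀ k, kn k ≤ R → f k ≤ B) (hz : ∀ k, R < kn k → f k = 0) :
    Summable f ∧ ∑' k, f k ≤ 27 * R ^ 3 * B := by
  have h1 : ∀ k ∉ box R, f k = 0 := by
    intro k hk
    refine hz k ?_
    by_contra hcon
    exact hk (mem_box (not_lt.1 hcon))
  refine ⟨summable_of_ne_finset_zero h1, ?_⟩
  rw [tsum_eq_sum h1]
  calc ∑ k ∈ box R, f k ≤ ∑ _k ∈ box R, B := by
        refine Finset.sum_le_sum fun k _ => ?_
        rcases le_or_gt (kn k) R with h | h
        · exact hf k h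
        · rw [hz k h]; exact hB
    _ = ((box R).card : ℝ) * B := by rw [Finset.sum_const, nsmul_eq_mul]
    _ ≤ _ := mul_le_mul_of_nonneg_right (card_box hR) hB

/-- The strain of the low modes. -/
lemma strA_low2 {a : Fin 3 → K3 → ℂ} (ha : Reg a) {R : ℝ} (hR : 1 ≤ R) :
    strA a R ≤ Real.sqrt (27 * R ^ 5 * zz 0 a) := by
  set f : K3 → ℝ := fun k => if kn k ≤ R then kn k else 0 with hf
  have hf0 : ∀ k, 0 ≤ f k := fun k => by
    simp only [hf]
    split_ifs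
    · exact kn_nonneg k
    · exact le_rfl
  obtain ⟨hfs, hfle⟩ := tsum_ball_le hR (f := fun k => f k ^ 2) (B := R ^ 2) (sq_nonneg _)
    (fun k => sq_nonneg _) (fun k hk => by
      simp only [hf, if_pos hk]
      exact pow_le_pow_left₀ (kn_nonneg k) hk 2) (fun k hk => by
      simp only [hf, if_neg (not_le.2 hk)]
      norm_num)
  obtain ⟨-, h1⟩ := cs hf0 (nv_nonneg a) hfs (summable_nv2 ha)
  have e1 : strA a R = ∑' k, f k * nv a k := by
    unfold strA sumB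
    refine tsum_congr fun k => ?_
    simp only [hf]
    split_ifs <;> simp
  have e2 : zz 0 a = ∑' k, nv a k ^ 2 := by
    unfold zz
    simp
  rw [e1, e2]
  refine h1.trans ?_
  rw [← Real.sqrt_mul (tsum_nonneg fun k => sq_nonneg _)]
  refine Real.sqrt_le_sqrt ?_
  refine mul_le_mul_of_nonneg_right (hfle.trans (le_of_eq ?_)) (tsum_nonneg fun k => sq_nonneg _)
  ring

/-- The strain of the modes in a window. -/
noncomputable def winA (a : Fin 3 → K3 → ℂ) (r R : ℝ) : ℝ :=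
  ∑' k, if r ≤ kn k ∧ kn k ≤ R then kn k * nv a k else 0

lemma strA_le_win {a : Fin 3 → K3 → ℂ} (ha : Reg a) (r R : ℝ) :
    strA a R ≤ strA a r + winA a r R := by
  have i1 := summable_ball (summable_knnv ha) (knnv_nonneg a) R
  have i2 := summable_ball (summable_knnv ha) (knnv_nonneg a) r
  have i3 : Summable fun k => if r ≤ kn k ∧ kn k ≤ R then kn k * nv a k else 0 :=
    Summable.of_nonneg_of_le (fun k => by split_ifs <;> simp [knnv_nonneg]) (fun k => by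
      split_ifs
      · exact le_rfl
      · exact knnv_nonneg a k) (summable_knnv ha)
  unfold strA sumB winA
  rw [← i2.tsum_add i3]
  refine i1.tsum_le_tsum (fun k => ?_) (i2.add i3)
  have h := knnv_nonneg a k
  rcases le_total (kn k) r with c | c
  · rw [if_pos c]
    split_ifs <;> linarith
  · by_cases c2 : kn k ≤ R
    · rw [if_pos c2, if_pos (show r ≤ kn k ∧ kn k ≤ R from ⟨c, c2⟩)]
      split_ifs <;> linarith
    · rw [if_neg c2]
      split_ifs <;> linarith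

variable {d : K3 → ℝ} {T : ℝ} {u : ℝ → V → V} {p : ℝ → V → ℝ} {D : ℝ} {K : ℕ}

/-- The window criterion. -/
theorem window {γ θ : ℝ} (hγ : 1 < γ) (hθ0 : 0 ≤ θ) (hθ : θ < 4 / 5) : ∃ c : ℝ, 0 < c ∧
    ∀ (d : K3 → ℝ) (D : ℝ) (K : ℕ) (ν T : ℝ) (u : ℝ → V → V) (p : ℝ → V → ℝ), 0 < ν →
      (∀ k, |d k| ≤ D * (1 + N1 k) ^ K) → (∀ k, ν * kn k ^ 2 ≤ d k) → IsSmoothSol d T u p →
      (∀ N₀ : ℝ, ∃ N, N₀ ≤ N ∧ ∃ β : ℝ → ℝ, IntegrableOn β (Ioo 0 T) ∧
        ∫ t in Ioo 0 T, β t ≤ c * Real.log N ∧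
        ∀ t ∈ Ioo 0 T, 0 ≤ β t ∧ ∀ R ∈ Icc N (N ^ γ),
          winA (cv (u t)) (N ^ θ) R ≤ c * ν * R ^ 2 + β t) →
      ∃ B, ∀ t ∈ Ico 0 T, ∀ x i, |u t x i| ≤ B := by
  obtain ⟨m, hm1, hm3⟩ : ∃ m : ℕ, 3 * γ + 2 ≤ m * (γ - 1) ∧ 3 ≤ m := by
    obtain ⟨m0, hm0⟩ := exists_nat_ge ((3 * γ + 2) / (γ - 1))
    refine ⟨m0 + 3, ?_, by omega⟩
    rw [div_le_iff₀ (by linarith)] at hm0
    push_cast
    linarith
  have hA : 0 < As (2 * m) := As_pos (by omega)
  refine ⟨(As (2 * m))⁻¹ / 2, by positivity, fun d D K ν T u p hν hd hdν hu hwin => ?_⟩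
  set c := (As (2 * m))⁻¹ with hc
  have hc0 : 0 < c := by positivity
  rcases le_or_gt T 0 with hT | hT
  · exact ⟨0, fun t ht => absurd (ht.1.trans_lt ht.2) (not_lt.2 hT)⟩
  have hd0 : ∀ k, 0 ≤ d k := fun k => (by positivity : 0 ≤ ν * kn k ^ 2).trans (hdν k)
  set E0 := zz 0 (cv (u 0)) with hE0
  have hE0n : 0 ≤ E0 := zz_nonneg _ _
  refine window_m hγ hm1 hm3 hν hd hdν hu fun N₀ => ?_
  -- the size of `N`
  have hlim : Tendsto (fun N : ℝ => N ^ (4 - 5 * θ)) atTop atTop :=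
    tendsto_rpow_atTop (by linarith)
  obtain ⟨N1', hN1'⟩ := (hlim.eventually_ge_atTop (27 * E0 / (c / 2 * ν) ^ 2)).exists_forall_of_atTop
  obtain ⟨N, hN, β, h1, h2, h3⟩ := hwin (max N₀ (max N1' 1))
  have hN₀ : N₀ ≤ N := (le_max_left _ _).trans hN
  have hNN : N1' ≤ N := ((le_max_left _ _).trans (le_max_right _ _)).trans hN
  have hN1 : 1 ≤ N := ((le_max_right _ _).trans (le_max_right _ _)).trans hN
  have hN0 : 0 < N := by linarith
  refine ⟨N, hN₀, β, h1, ?_, fun t ht => ⟨(h3 t ht).1, fun R hR => ?_⟩⟩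
  · refine h2.trans ?_
    have := Real.log_nonneg hN1
    exact mul_le_mul_of_nonneg_right (by linarith) this
  · have htI : t ∈ Ico 0 T := ⟨ht.1.le, ht.2⟩
    obtain ⟨C, hC⟩ := exists_RB hu htI 5
    have ha := reg_of_RB hu.sol htI hC
    have hR1 : N ≤ R := hR.1
    have hNθ : 1 ≤ N ^ θ := Real.one_le_rpow hN1 hθ0
    have k1 := strA_le_win ha (N ^ θ) R
    have k2 := (h3 t ht).2 R hR
    have k3 := strA_low2 ha hNθ
    have hE : zz 0 (cv (u t)) ≤ E0 := energy_le hd0 hd hu htI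
    have k4 : Real.sqrt (27 * (N ^ θ) ^ 5 * zz 0 (cv (u t))) ≤ c / 2 * ν * N ^ 2 := by
      refine Real.sqrt_le_iff.2 ⟨by positivity, ?_⟩
      have h5 := hN1' N hNN
      rw [div_le_iff₀ (by positivity)] at h5
      have e1 : (N ^ θ) ^ 5 * N ^ (4 - 5 * θ) = N ^ 4 := by
        rw [← Real.rpow_natCast (N ^ θ) 5, ← Real.rpow_mul hN0.le, ← Real.rpow_add hN0,
          ← Real.rpow_natCast N 4]
        congr 1
        push_cast
        ring
      calc 27 * (N ^ θ) ^ 5 * zz 0 (cv (u t)) ≤ 27 * (N ^ θ) ^ 5 * E0 := by gcongr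
        _ = (N ^ θ) ^ 5 * (27 * E0) := by ring
        _ ≤ (N ^ θ) ^ 5 * (N ^ (4 - 5 * θ) * (c / 2 * ν) ^ 2) := by gcongr
        _ = ((N ^ θ) ^ 5 * N ^ (4 - 5 * θ)) * (c / 2 * ν) ^ 2 := by ring
        _ = (c / 2 * ν * N ^ 2) ^ 2 := by rw [e1]; ring
    have k5 : c / 2 * ν * N ^ 2 ≤ c / 2 * ν * R ^ 2 := by gcongr
    linarith

end Pool.Agent.R211.WN
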