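import Pool.Agent.R211.WN.Smooth

/-!
The evolution of the weighted energy of a smooth solution.
-/

set_option autoImplicit false

open Set Filter Topology MeasureTheory
open scoped ComplexConjugate ENNReal ContDiff

namespace Pool.Agent.R211.WN

open Pool.Agent.H708R2.EulerSign (V Periodic3 Dom divergence grad contDiff_slice)
open Pool.Agent.H708R2.EulerModes
open Pool.Agent.Y302.Trunc (K3 resc)
open Pool.Agent.Y302.Tri
open Pool.Agent.R211.SV

/-- The weighted energy. -/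
noncomputable def zz (s : ℕ) (a : Fin 3 → K3 → ℂ) : ℝ := ∑' k, kn k ^ (2 * s) * nv a k ^ 2

lemma zz_nonneg (s : ℕ) (a : Fin 3 → K3 → ℂ) : 0 ≤ zz s a :=
  tsum_nonneg fun k => mul_nonneg (pow_nonneg (kn_nonneg k) _) (sq_nonneg _)

section RB

variable {a : Fin 3 → K3 → ℂ} {n : ℕ} {C : ℝ}

lemma one_le_J (k : K3) : 1 ≤ 1 + N1 k := by have := N1_nonneg k; linarith

lemma kn_le_J (k : K3) : kn k ≤ 1 + N1 k := by have := kn_le_N1 k; linarith

lemma RB.nv_le0 (h : RB n C a) (k : K3) : nv a k ≤ 3 * C := by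
  refine le_trans ?_ (h.nv_le k)
  have h1 := one_le_pow₀ (one_le_J k) (n := n)
  have h2 := nv_nonneg a k
  nlinarith

/-- A general weighted bound. -/
lemma RB.wbound (h : RB n C a) {m : ℕ} (hm : 4 + m ≤ n) (k : K3) :
    (1 + N1 k) ^ 4 * ((1 + N1 k) ^ m * nv a k) ≤ 3 * C := by
  have h1 := (h.mono hm).nv_le k
  rw [pow_add] at h1
  linarith

lemma RB.tsum_nv_le (h : RB n C a) (hn : 4 ≤ n) :
    ∑' q, nv a q ≤ 3 * C * ∑' k : K3, ((1 + N1 k) ^ 4)⁻¹ := by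
  have h1 : ∀ q, nv a q ≤ 3 * C * ((1 + N1 q) ^ 4)⁻¹ := by
    intro q
    have h2 := h.wbound (m := 0) (by omega) q
    rw [pow_zero, one_mul] at h2
    have h3 : 0 < (1 + N1 q) ^ 4 := by have := N1_nonneg q; positivity
    rw [← div_eq_mul_inv, le_div_iff₀ h3]
    linarith
  have h4 : Summable (nv a) := by
    refine summable_of_decay (C := 3 * C) fun k => ?_
    rw [abs_of_nonneg (nv_nonneg a k)]
    have := h.wbound (m := 0) (by omega) k
    rwa [pow_zero, one_mul] at this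
  rw [← tsum_mul_left]
  exact h4.tsum_le_tsum h1 (summable_N1_4.mul_left _)

lemma pow_kn_le (m : ℕ) (k : K3) : kn k ^ m ≤ (1 + N1 k) ^ m :=
  pow_le_pow_left₀ (kn_nonneg k) (kn_le_J k) m

lemma RB.summable_w1 (h : RB n C a) {m : ℕ} (hm : 4 + m ≤ n) :
    Summable fun k => kn k ^ m * nv a k := by
  refine summable_of_decay (C := 3 * C) fun k => ?_
  rw [abs_of_nonneg (mul_nonneg (pow_nonneg (kn_nonneg k) _) (nv_nonneg a k))]
  refine le_trans ?_ (h.wbound hm k)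
  have := N1_nonneg k
  refine mul_le_mul_of_nonneg_left ?_ (by positivity)
  exact mul_le_mul_of_nonneg_right (pow_kn_le m k) (nv_nonneg a k)

lemma RB.summable_w2 (h : RB n C a) {m : ℕ} (hm : 4 + m ≤ n) :
    Summable fun k => kn k ^ m * nv a k ^ 2 := by
  refine Summable.of_nonneg_of_le (fun k => mul_nonneg (pow_nonneg (kn_nonneg k) _) (sq_nonneg _))
    (fun k => ?_) ((h.summable_w1 hm).mul_left (3 * C))
  calc kn k ^ m * nv a k ^ 2 = nv a k * (kn k ^ m * nv a k) := by ring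
    _ ≤ 3 * C * (kn k ^ m * nv a k) :=
        mul_le_mul_of_nonneg_right (h.nv_le0 k)
          (mul_nonneg (pow_nonneg (kn_nonneg k) _) (nv_nonneg a k))

end RB

section evo

variable {d : K3 → ℝ} {T : ℝ} {u : ℝ → V → V} {p : ℝ → V → ℝ}

lemma reg_of_RB {C : ℝ} {t : ℝ} (hu : SV.IsSol d T u p) (ht : t ∈ Ico 0 T)
    (h : RB 5 C (cv (u t))) : Reg (cv (u t)) :=
  h.reg (fun i k => cv_conj _ i k) (fun k => cv_div (contDiff_slice hu.base.contDiffOn_u ht)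
    (hu.base.periodic_u t ht) (hu.base.div_free t ht) k)

variable {D : ℝ} {K : ℕ}

/-- The bound of the time derivative of a mode. -/
lemma term_bound (hd : ∀ k, |d k| ≤ D * (1 + N1 k) ^ K) {n : ℕ} {C : ℝ} {s : ℕ}
    (hn : 5 + 2 * s + K ≤ n) {a : Fin 3 → K3 → ℂ} (ha : Reg a) (h : RB n C a) (k : K3) :
    (1 + N1 k) ^ 4 * |kn k ^ (2 * s) * (-2 * d k * nv a k ^ 2 + 2 * flx a k)|
      ≤ 2 * D * (3 * C) ^ 2 + 2 * (3 * C) * (3 * C * ∑' k : K3, ((1 + N1 k) ^ 4)⁻¹) ^ 2 := by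
  have hC := h.nonneg
  have hJ := one_le_J k
  have hJ0 : 0 < 1 + N1 k := by linarith
  have hD0 : 0 ≤ D := by
    have h1 := (abs_nonneg _).trans (hd 0)
    have h2 : 0 < (1 + N1 0) ^ K := by have := N1_nonneg 0; positivity
    exact nonneg_of_mul_nonneg_left h1 h2
  have hS : (∑' q, nv a q) ≤ 3 * C * ∑' k : K3, ((1 + N1 k) ^ 4)⁻¹ := h.tsum_nv_le (by omega)
  have hS0 : 0 ≤ ∑' q, nv a q := tsum_nonneg fun q => nv_nonneg a q
  have hf := abs_flx_le ha k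
  have hnv := nv_nonneg a k
  have hkn := kn_nonneg k
  have hw : kn k ^ (2 * s) ≤ (1 + N1 k) ^ (2 * s) := pow_kn_le _ k
  have b1 : |(-2 * d k * nv a k ^ 2 + 2 * flx a k)|
      ≤ 2 * (D * (1 + N1 k) ^ K) * nv a k ^ 2
        + 2 * ((1 + N1 k) * nv a k * (3 * C * ∑' k : K3, ((1 + N1 k) ^ 4)⁻¹) ^ 2) := by
    refine (abs_add_le _ _).trans (add_le_add ?_ ?_)
    · rw [abs_mul, abs_mul, abs_neg, abs_two, abs_of_nonneg (sq_nonneg (nv a k))]
      gcongr
      exact hd k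
    · rw [abs_mul, abs_two]
      refine mul_le_mul_of_nonneg_left (hf.trans ?_) (by norm_num)
      exact mul_le_mul (mul_le_mul_of_nonneg_right (kn_le_J k) hnv)
        (pow_le_pow_left₀ hS0 hS 2) (by positivity) (by positivity)
  rw [abs_mul, abs_of_nonneg (pow_nonneg hkn _)]
  have k1 : (1 + N1 k) ^ 4 * ((1 + N1 k) ^ (2 * s + K) * nv a k) ≤ 3 * C :=
    h.wbound (by omega) k
  have k2 : (1 + N1 k) ^ 4 * ((1 + N1 k) ^ (2 * s + 1) * nv a k) ≤ 3 * C :=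
    h.wbound (by omega) k
  have k3 := h.nv_le0 k
  set S4 : ℝ := 3 * C * ∑' k : K3, ((1 + N1 k) ^ 4)⁻¹ with hS4
  calc (1 + N1 k) ^ 4 * (kn k ^ (2 * s) * |(-2 * d k * nv a k ^ 2 + 2 * flx a k)|)
      ≤ (1 + N1 k) ^ 4 * ((1 + N1 k) ^ (2 * s) * (2 * (D * (1 + N1 k) ^ K) * nv a k ^ 2
        + 2 * ((1 + N1 k) * nv a k * S4 ^ 2))) := by
        refine mul_le_mul_of_nonneg_left ?_ (by positivity)
        exact mul_le_mul hw b1 (abs_nonneg _) (by positivity)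
    _ = 2 * D * (((1 + N1 k) ^ 4 * ((1 + N1 k) ^ (2 * s + K) * nv a k)) * nv a k)
        + 2 * ((1 + N1 k) ^ 4 * ((1 + N1 k) ^ (2 * s + 1) * nv a k)) * S4 ^ 2 := by
        rw [pow_add, pow_add _ (2 * s) 1]
        ring
    _ ≤ 2 * D * ((3 * C) * (3 * C)) + 2 * (3 * C) * S4 ^ 2 := by
        gcongr
    _ = _ := by ring

/-- The evolution of the weighted energy. -/
theorem zz_deriv (hd : ∀ k, |d k| ≤ D * (1 + N1 k) ^ K) (hu : IsSmoothSol d T u p) (s : ℕ) {t : ℝ}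
    (ht : t ∈ Ioo 0 T) : HasDerivAt (fun τ => zz s (cv (u τ)))
      (∑' k, kn k ^ (2 * s) * (-2 * d k * nv (cv (u t)) k ^ 2 + 2 * flx (cv (u t)) k)) t := by
  obtain ⟨b, hb1, hb2⟩ := exists_between ht.2
  obtain ⟨C, hC⟩ := unif_cv hb2 hu.smooth_u hu.sol.base.periodic_u (5 + 2 * s + K)
  have hreg : ∀ τ ∈ Ioo 0 b, Reg (cv (u τ)) := fun τ hτ =>
    reg_of_RB hu.sol ⟨hτ.1.le, hτ.2.trans hb2⟩ ((hC τ ⟨hτ.1.le, hτ.2.le⟩).mono (by omega))
  set M : ℝ := 2 * D * (3 * C) ^ 2 + 2 * (3 * C) * (3 * C * ∑' k : K3, ((1 + N1 k) ^ 4)⁻¹) ^ 2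
    with hM
  refine hasDerivAt_tsum_of_isPreconnected (u := fun k : K3 => M * ((1 + N1 k) ^ 4)⁻¹)
    (t := Ioo 0 b) (summable_N1_4.mul_left M) isOpen_Ioo isPreconnected_Ioo
    (g := fun k τ => kn k ^ (2 * s) * nv (cv (u τ)) k ^ 2)
    (g' := fun k τ => kn k ^ (2 * s)
      * (-2 * d k * nv (cv (u τ)) k ^ 2 + 2 * flx (cv (u τ)) k)) (fun k τ hτ => ?_)
    (fun k τ hτ => ?_) (y₀ := t) ⟨ht.1, hb1⟩ ?_ ⟨ht.1, hb1⟩
  · exact (mode_deriv hu.sol ⟨hτ.1, hτ.2.trans hb2⟩ (hreg τ hτ) k).const_mul _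
  · have h1 := term_bound hd (s := s) le_rfl (hreg τ hτ) (hC τ ⟨hτ.1.le, hτ.2.le⟩) k
    have h2 : 0 < (1 + N1 k) ^ 4 := by have := N1_nonneg k; positivity
    rw [Real.norm_eq_abs, ← div_eq_mul_inv, le_div_iff₀ h2]
    linarith
  · exact (hC t ⟨ht.1.le, hb1.le⟩).summable_w2 (by omega)

/-- Continuity of the weighted energy. -/
theorem zz_continuousOn (hu : IsSmoothSol d T u p) (s : ℕ) :
    ContinuousOn (fun τ => zz s (cv (u τ))) (Ico 0 T) := by
  intro t ht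
  obtain ⟨b, hb1, hb2⟩ := exists_between ht.2
  obtain ⟨C, hC⟩ := unif_cv hb2 hu.smooth_u hu.sol.base.periodic_u (4 + 2 * s)
  have hc : ContinuousOn (fun τ => zz s (cv (u τ))) (Icc 0 b) := by
    refine continuousOn_tsum (u := fun k : K3 => (3 * C) ^ 2 * ((1 + N1 k) ^ 4)⁻¹) (fun k => ?_)
      (summable_N1_4.mul_left _) fun k τ hτ => ?_
    · have h1 : ContinuousOn (fun τ => nv (cv (u τ)) k ^ 2) (Icc 0 b) := by
        have e : (fun τ => nv (cv (u τ)) k ^ 2) = fun τ => ∑ i, ‖cv (u τ) i k‖ ^ 2 := by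
          funext τ
          rw [nv_sq]
        rw [e]
        refine continuousOn_finsetSum _ fun i _ => ?_
        exact ((continuousOn_cv hu.sol.base k i).mono fun τ hτ =>
          ⟨hτ.1, hτ.2.trans_lt hb2⟩).norm.pow 2
      exact continuousOn_const.mul h1
    · have h2 : 0 < (1 + N1 k) ^ 4 := by have := N1_nonneg k; positivity
      rw [Real.norm_eq_abs, ← div_eq_mul_inv, le_div_iff₀ h2,
        abs_of_nonneg (mul_nonneg (pow_nonneg (kn_nonneg k) _) (sq_nonneg _))]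
      have h3 := (hC τ hτ).wbound (m := 2 * s) le_rfl k
      have h4 := (hC τ hτ).nv_le0 k
      have h5 := nv_nonneg (cv (u τ)) k
      have hC0 := (hC τ hτ).nonneg
      calc kn k ^ (2 * s) * nv (cv (u τ)) k ^ 2 * (1 + N1 k) ^ 4
          ≤ (1 + N1 k) ^ (2 * s) * nv (cv (u τ)) k ^ 2 * (1 + N1 k) ^ 4 := by
            gcongr
            · exact kn_nonneg k
            · exact kn_le_J k
        _ = ((1 + N1 k) ^ 4 * ((1 + N1 k) ^ (2 * s) * nv (cv (u τ)) k)) * nv (cv (u τ)) k := by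
            ring
        _ ≤ (3 * C) * (3 * C) := by gcongr
        _ = _ := by ring
  have hev : Icc 0 b ∈ 𝓝[Ico 0 T] t := by
    have h1 : ∀ᶠ s in 𝓝[Ico 0 T] t, s < b := nhdsWithin_le_nhds (Iio_mem_nhds hb1)
    filter_upwards [h1, self_mem_nhdsWithin] with s hs1 hs2
    exact ⟨hs2.1, hs1.le⟩
  exact (hc t ⟨ht.1, hb1.le⟩).mono_of_mem_nhdsWithin hev

lemma summable_dterm (hd : ∀ k, |d k| ≤ D * (1 + N1 k) ^ K) {n : ℕ} {C : ℝ} {s : ℕ}
    (hn : 5 + 2 * s + K ≤ n) {a : Fin 3 → K3 → ℂ} (h : RB n C a) :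
    Summable fun k => d k * (kn k ^ (2 * s) * nv a k ^ 2) := by
  have hC := h.nonneg
  have hD0 : 0 ≤ D := by
    have h1 := (abs_nonneg _).trans (hd 0)
    have h2 : 0 < (1 + N1 0) ^ K := by have := N1_nonneg 0; positivity
    exact nonneg_of_mul_nonneg_left h1 h2
  refine summable_of_decay (C := D * (3 * C) ^ 2) fun k => ?_
  have hJ := N1_nonneg k
  have k1 : (1 + N1 k) ^ 4 * ((1 + N1 k) ^ (2 * s + K) * nv a k) ≤ 3 * C :=
    h.wbound (by omega) k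
  have k3 := h.nv_le0 k
  have hnv := nv_nonneg a k
  rw [abs_mul, abs_of_nonneg (mul_nonneg (pow_nonneg (kn_nonneg k) _) (sq_nonneg (nv a k)))]
  calc (1 + N1 k) ^ 4 * (|d k| * (kn k ^ (2 * s) * nv a k ^ 2))
      ≤ (1 + N1 k) ^ 4 * ((D * (1 + N1 k) ^ K) * ((1 + N1 k) ^ (2 * s) * nv a k ^ 2)) := by
        refine mul_le_mul_of_nonneg_left ?_ (by positivity)
        refine mul_le_mul (hd k) ?_ (mul_nonneg (pow_nonneg (kn_nonneg k) _) (sq_nonneg _))
          (by positivity)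
        exact mul_le_mul_of_nonneg_right (pow_kn_le _ k) (sq_nonneg _)
    _ = D * (((1 + N1 k) ^ 4 * ((1 + N1 k) ^ (2 * s + K) * nv a k)) * nv a k) := by
        rw [pow_add _ (2 * s) K]
        ring
    _ ≤ D * ((3 * C) * (3 * C)) := by gcongr
    _ = _ := by ring

lemma strA_le {a : Fin 3 → K3 → ℂ} (ha : Reg a) (r : ℝ) : strA a r ≤ ∑' k, kn k * nv a k :=
  sumB_le_tsum (summable_knnv ha) (knnv_nonneg a) r

lemma summable_sterm {n : ℕ} {C : ℝ} {s : ℕ} (hn : 4 + 2 * s ≤ n) {a : Fin 3 → K3 → ℂ}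
    (ha : Reg a) (h : RB n C a) :
    Summable fun k => strA a (kn k) * (kn k ^ (2 * s) * nv a k ^ 2) := by
  refine Summable.of_nonneg_of_le (fun k => mul_nonneg (strA_nonneg _ _)
    (mul_nonneg (pow_nonneg (kn_nonneg k) _) (sq_nonneg _))) (fun k => ?_)
    ((h.summable_w2 hn).mul_left (∑' k, kn k * nv a k))
  exact mul_le_mul_of_nonneg_right (strA_le ha _)
    (mul_nonneg (pow_nonneg (kn_nonneg k) _) (sq_nonneg _))

lemma tsum_w_flx {a : Fin 3 → K3 → ℂ} (ha : Reg a) {w : K3 → ℝ}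
    (hw : Summable fun k => |w k| * nv a k) :
    ∑' x : K3 × K3, w x.1 * (xx a x).im = ∑' k, w k * flx a k := by
  have h1 := (summable_w ha hw).tsum_prod
  simp only at h1
  rw [h1]
  refine tsum_congr fun k => ?_
  rw [tsum_mul_left]
  rfl

/-- The differential inequality for the weighted energy. -/
theorem zz_rate (hd : ∀ k, |d k| ≤ D * (1 + N1 k) ^ K) {n : ℕ} {C : ℝ} {s : ℕ} (hs : 1 ≤ s)
    (hn : 5 + 2 * s + K ≤ n) {a : Fin 3 → K3 → ℂ} (ha : Reg a) (h : RB n C a) :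
    ∑' k, kn k ^ (2 * s) * (-2 * d k * nv a k ^ 2 + 2 * flx a k)
      ≤ ∑' k, (-2 * d k + 12 * s * 2 ^ s * strA a (kn k)) * (kn k ^ (2 * s) * nv a k ^ 2) := by
  have s1 := summable_dterm hd hn h
  have s2 := summable_sterm (s := s) (n := n) (by omega) ha h
  have hw : Summable fun k => |kn k ^ (2 * s)| * nv a k := by
    refine (h.summable_w1 (m := 2 * s) (by omega)).congr fun k => ?_
    rw [abs_of_nonneg (pow_nonneg (kn_nonneg k) _)]
  have s3 : Summable fun k => kn k ^ (2 * s) * flx a k := by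
    have h1 := (summable_w ha hw).prod
    simp only at h1
    refine h1.congr fun k => ?_
    rw [tsum_mul_left]
    rfl
  have key := (le_abs_self _).trans (tri_pow ha hs (h.summable_w1 (m := 2 * s) (by omega)) s2)
  rw [tsum_w_flx ha hw] at key
  have e1 : ∀ k, kn k ^ (2 * s) * (-2 * d k * nv a k ^ 2 + 2 * flx a k)
      = -2 * (d k * (kn k ^ (2 * s) * nv a k ^ 2)) + 2 * (kn k ^ (2 * s) * flx a k) := by
    intro k; ring
  have e2 : ∀ k, (-2 * d k + 12 * s * 2 ^ s * strA a (kn k)) * (kn k ^ (2 * s) * nv a k ^ 2)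
      = -2 * (d k * (kn k ^ (2 * s) * nv a k ^ 2))
        + 12 * s * 2 ^ s * (strA a (kn k) * (kn k ^ (2 * s) * nv a k ^ 2)) := by
    intro k; ring
  simp_rw [e1, e2]
  rw [(s1.mul_left (-2)).tsum_add (s3.mul_left 2),
    (s1.mul_left (-2)).tsum_add (s2.mul_left _), tsum_mul_left, tsum_mul_left, tsum_mul_left]
  have h12 : (12 * s * 2 ^ s : ℝ) = 2 * (3 * (2 * s * 2 ^ s)) := by ring
  rw [h12]
  linarith

end evo

end Pool.Agent.R211.WN
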