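import Pool.Agent.R211.WN.Wts
import Pool.Agent.R211.SV.Loc6
import Pool.Agent.R211.SV.Der
import Pool.Agent.H459R3.NS.Evo

/-!
Uniform decay of the Fourier coefficients of smooth solutions, and the evolution of the weighted
energy.
-/

set_option autoImplicit false

open Set Filter Topology MeasureTheory
open scoped ComplexConjugate ENNReal ContDiff

namespace Pool.Agent.R211.WN

open Pool.Agent.H708R2.EulerSign (V Periodic3 Dom divergence grad contDiff_slice)
open Pool.Agent.H708R2.EulerModes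
open Pool.Agent.Y302.Trunc (K3 resc)
open Pool.Agent.Y302.Tri
open Pool.Agent.R211.SV

lemma norm_cf_le {f : V → ℝ} {C : ℝ} (h : ∀ y ∈ H459R3.NS.cube, |f ((2 * Real.pi) • y)| ≤ C)
    (k : K3) : ‖cf f k‖ ≤ C := by
  unfold cf H459R3.NS.fc
  have h1 := norm_setIntegral_le_of_norm_le_const (μ := volume) (s := H459R3.NS.cube) (C := C)
    (f := fun y => H459R3.NS.ee (-k) y * resc f y)
    (by rw [H459R3.NS.volume_cube]; exact ENNReal.one_lt_top) (fun y hy => by
      rw [norm_mul, H459R3.NS.norm_ee, one_mul]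
      unfold resc
      rw [Complex.norm_real]
      exact h y hy)
  have h2 : volume.real H459R3.NS.cube = 1 := by
    rw [Measure.real, H459R3.NS.volume_cube]
    simp
  rwa [h2, mul_one] at h1

/-- Uniform decay in one direction. -/
lemma unif_cf {T b : ℝ} (hb : b < T) (j : Fin 3) (n : ℕ) : ∀ {f : ℝ → V → ℝ}
    (_ : ContDiffOn ℝ ∞ (fun z : ℝ × V => f z.1 z.2) (Ico 0 T ×ˢ univ))
    (_ : ∀ t ∈ Ico 0 T, Periodic3 (f t)),
    ∃ C, ∀ t ∈ Icc 0 b, ∀ k : K3, |(k j : ℝ)| ^ n * ‖cf (f t) k‖ ≤ C := by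
  induction n with
  | zero =>
    intro f hf hp
    have hK : IsCompact (Icc 0 b ×ˢ ((fun y : V => (2 * Real.pi) • y) '' H459R3.NS.cube)) := by
      refine isCompact_Icc.prod (IsCompact.image ?_ (by fun_prop))
      exact isCompact_Icc
    have hsub : Icc 0 b ×ˢ ((fun y : V => (2 * Real.pi) • y) '' H459R3.NS.cube)
        ⊆ Ico 0 T ×ˢ (univ : Set V) :=
      prod_mono (fun s hs => ⟨hs.1, hs.2.trans_lt hb⟩) (subset_univ _)
    obtain ⟨C, hC⟩ := hK.exists_bound_of_continuousOn (hf.continuousOn.mono hsub)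
    refine ⟨C, fun t ht k => ?_⟩
    rw [pow_zero, one_mul]
    exact norm_cf_le (fun y hy => hC (t, (2 * Real.pi) • y) ⟨ht, y, hy, rfl⟩) k
  | succ n ih =>
    intro f hf hp
    have h1 := H459R3.NS.contDiffOn_pd hf j
    have h2 : ∀ t ∈ Ico 0 T, Periodic3 (H459R3.NS.pd j (f t)) := by
      intro t ht i x
      show fderiv ℝ (f t) (x + Pi.single i (2 * Real.pi)) (Pi.single j 1)
        = fderiv ℝ (f t) x (Pi.single j 1)
      rw [(hp t ht).fderiv i x]
    obtain ⟨C, hC⟩ := ih (f := fun t => H459R3.NS.pd j (f t)) h1 h2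
    refine ⟨C, fun t ht k => ?_⟩
    have htI : t ∈ Ico 0 T := ⟨ht.1, ht.2.trans_lt hb⟩
    have hft : ContDiff ℝ 1 (f t) := (H459R3.NS.contDiff_slice hf htI).of_le (by norm_cast)
    have h3 : cf (H459R3.NS.pd j (f t)) k = Complex.I * (k j : ℂ) * cf (f t) k :=
      cf_pd (hp t htI) hft j k
    have h4 := hC t ht k
    rw [h3, norm_mul, norm_mul, Complex.norm_I, one_mul, Complex.norm_intCast] at h4
    calc |(k j : ℝ)| ^ (n + 1) * ‖cf (f t) k‖ = |(k j : ℝ)| ^ n * (|(k j : ℝ)| * ‖cf (f t) k‖) := by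
          ring
      _ ≤ C := h4

lemma N1_pow_le (n : ℕ) (k : K3) : (1 + N1 k) ^ n ≤ 4 ^ n * (1 + ∑ j, |(k j : ℝ)| ^ n) := by
  set m : ℝ := max 1 (max |(k 0 : ℝ)| (max |(k 1 : ℝ)| |(k 2 : ℝ)|)) with hm
  have m1 : 1 ≤ m := le_max_left _ _
  have m2 : |(k 0 : ℝ)| ≤ m := (le_max_left _ _).trans (le_max_right _ _)
  have m3 : |(k 1 : ℝ)| ≤ m :=
    (le_max_left _ _).trans ((le_max_right _ _).trans (le_max_right _ _))
  have m4 : |(k 2 : ℝ)| ≤ m :=
    (le_max_right _ _).trans ((le_max_right _ _).trans (le_max_right _ _))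
  have h1 : 1 + N1 k ≤ 4 * m := by
    unfold N1
    rw [Fin.sum_univ_three]
    linarith
  have h2 : m ^ n ≤ 1 + ∑ j, |(k j : ℝ)| ^ n := by
    rw [Fin.sum_univ_three]
    have a0 : 0 ≤ |(k 0 : ℝ)| ^ n := pow_nonneg (abs_nonneg _) n
    have a1 : 0 ≤ |(k 1 : ℝ)| ^ n := pow_nonneg (abs_nonneg _) n
    have a2 : 0 ≤ |(k 2 : ℝ)| ^ n := pow_nonneg (abs_nonneg _) n
    rcases max_choice 1 (max |(k 0 : ℝ)| (max |(k 1 : ℝ)| |(k 2 : ℝ)|)) with h | h
    · rw [hm, h, one_pow]; linarith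
    · rw [hm, h]
      rcases max_choice |(k 0 : ℝ)| (max |(k 1 : ℝ)| |(k 2 : ℝ)|) with h' | h'
      · rw [h']; linarith
      · rw [h']
        rcases max_choice |(k 1 : ℝ)| |(k 2 : ℝ)| with h'' | h'' <;> rw [h''] <;> linarith
  calc (1 + N1 k) ^ n ≤ (4 * m) ^ n :=
        pow_le_pow_left₀ (by have := N1_nonneg k; linarith) h1 n
    _ = 4 ^ n * m ^ n := mul_pow _ _ _
    _ ≤ _ := by gcongr

/-- The sequence decays like the power `n`, with the constant `C`. -/
def RB (n : ℕ) (C : ℝ) (a : Fin 3 → K3 → ℂ) : Prop := ∀ i k, (1 + N1 k) ^ n * ‖a i k‖ ≤ C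

lemma unif_cv {T b : ℝ} (hb : b < T) {u : ℝ → V → V}
    (hu : ContDiffOn ℝ ∞ (fun z : ℝ × V => u z.1 z.2) (Ico 0 T ×ˢ univ))
    (hp : ∀ t ∈ Ico 0 T, Periodic3 (u t)) (n : ℕ) :
    ∃ C, ∀ t ∈ Icc 0 b, RB n C (cv (u t)) := by
  have h1 : ∀ (i j : Fin 3) (m : ℕ), ∃ C, ∀ t ∈ Icc 0 b, ∀ k : K3,
      |(k j : ℝ)| ^ m * ‖cf (fun x => u t x i) k‖ ≤ C := by
    intro i j m
    refine unif_cf hb j m (f := fun t x => u t x i) ?_ fun t ht => comp_periodic (hp t ht) i
    exact (contDiff_apply ℝ ℝ i).comp_contDiffOn hu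
  choose C hC using h1
  refine ⟨4 ^ n * ∑ i, (|C i 0 0| + ∑ j, |C i j n|), fun t ht i k => ?_⟩
  have h2 : ‖cv (u t) i k‖ ≤ |C i 0 0| := by
    have := hC i 0 0 t ht k
    rw [pow_zero, one_mul] at this
    exact this.trans (le_abs_self _)
  have h3 : (∑ j, |(k j : ℝ)| ^ n) * ‖cv (u t) i k‖ ≤ ∑ j, |C i j n| := by
    rw [Finset.sum_mul]
    exact Finset.sum_le_sum fun j _ => (hC i j n t ht k).trans (le_abs_self _)
  have h4 : |C i 0 0| + ∑ j, |C i j n| ≤ ∑ i, (|C i 0 0| + ∑ j, |C i j n|) :=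
    Finset.single_le_sum (f := fun i => |C i 0 0| + ∑ j, |C i j n|)
      (fun i _ => add_nonneg (abs_nonneg _) (Finset.sum_nonneg fun _ _ => abs_nonneg _))
      (Finset.mem_univ i)
  calc (1 + N1 k) ^ n * ‖cv (u t) i k‖
      ≤ (4 ^ n * (1 + ∑ j, |(k j : ℝ)| ^ n)) * ‖cv (u t) i k‖ :=
        mul_le_mul_of_nonneg_right (N1_pow_le n k) (norm_nonneg _)
    _ = 4 ^ n * (‖cv (u t) i k‖ + (∑ j, |(k j : ℝ)| ^ n) * ‖cv (u t) i k‖) := by ring
    _ ≤ 4 ^ n * (|C i 0 0| + ∑ j, |C i j n|) := by gcongr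
    _ ≤ _ := by gcongr

lemma summable_N1_4 : Summable fun k : K3 => ((1 + N1 k) ^ 4)⁻¹ := by
  refine Summable.of_nonneg_of_le (fun k => by have := N1_nonneg k; positivity) (fun k => ?_)
    summable_jb2
  rw [← one_div]
  have h1 : jb k ≤ (1 + N1 k) ^ 2 := by
    unfold jb
    have h2 := kn_le_N1 k
    have h3 := kn_sq k
    have h4 := kn_nonneg k
    nlinarith [N1_nonneg k]
  have h5 := jb_pos k
  refine one_div_le_one_div_of_le (by positivity) ?_
  calc jb k ^ 2 ≤ ((1 + N1 k) ^ 2) ^ 2 := pow_le_pow_left₀ h5.le h1 2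
    _ = _ := by ring

/-- Summability from decay. -/
lemma summable_of_decay {f : K3 → ℝ} {C : ℝ} (h : ∀ k, (1 + N1 k) ^ 4 * |f k| ≤ C) :
    Summable f := by
  refine Summable.of_norm_bounded (summable_N1_4.mul_left C) fun k => ?_
  have h1 : 0 < (1 + N1 k) ^ 4 := by have := N1_nonneg k; positivity
  rw [Real.norm_eq_abs, ← div_eq_mul_inv, le_div_iff₀ h1, mul_comm]
  exact h k

section RB

variable {a : Fin 3 → K3 → ℂ} {n : ℕ} {C : ℝ}

lemma RB.nonneg (h : RB n C a) : 0 ≤ C := by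
  have := h 0 0
  exact (mul_nonneg (pow_nonneg (by have := N1_nonneg 0; linarith) _) (norm_nonneg _)).trans this

lemma RB.sz_le (h : RB n C a) (k : K3) : (1 + N1 k) ^ n * sz a k ≤ 3 * C := by
  unfold sz
  rw [Finset.mul_sum]
  calc _ ≤ ∑ _i : Fin 3, C := Finset.sum_le_sum fun i _ => h i k
    _ = _ := by simp

lemma RB.nv_le (h : RB n C a) (k : K3) : (1 + N1 k) ^ n * nv a k ≤ 3 * C :=
  (mul_le_mul_of_nonneg_left (nv_le_sz a k)
    (pow_nonneg (by have := N1_nonneg k; linarith) _)).trans (h.sz_le k)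

lemma RB.mono {m : ℕ} (h : RB n C a) (hm : m ≤ n) : RB m C a := by
  intro i k
  refine le_trans ?_ (h i k)
  have := N1_nonneg k
  exact mul_le_mul_of_nonneg_right (pow_le_pow_right₀ (by linarith) hm) (norm_nonneg _)

lemma RB.reg (h : RB 5 C a) (hc : ∀ i k, conj (a i k) = a i (-k)) (hd : ∀ p, dt a p p = 0) :
    Reg a where
  cj := hc
  div := hd
  s0 i := by
    refine summable_of_decay (C := C) fun k => ?_
    rw [abs_of_nonneg (norm_nonneg _)]
    exact h.mono (by norm_num) i k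
  s1 i := by
    refine summable_of_decay (C := C) fun k => ?_
    have hN := N1_nonneg k
    rw [abs_of_nonneg (mul_nonneg hN (norm_nonneg _))]
    refine le_trans ?_ (h i k)
    rw [pow_succ _ 4, mul_assoc]
    refine mul_le_mul_of_nonneg_left ?_ (by positivity)
    exact mul_le_mul_of_nonneg_right (by linarith) (norm_nonneg _)

end RB

/-- The flux of energy into the mode `k`. -/
noncomputable def flx (a : Fin 3 → K3 → ℂ) (k : K3) : ℝ := ∑' q, (xx a (k, q)).im

lemma summable_xx {a : Fin 3 → K3 → ℂ} (ha : Reg a) : Summable fun x : K3 × K3 => (xx a x).im := by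
  have := summable_w ha (w := fun _ => 1) (by simpa using summable_nv ha)
  simpa using this

lemma summable_xx_slice {a : Fin 3 → K3 → ℂ} (ha : Reg a) (k : K3) :
    Summable fun q => (xx a (k, q)).im := by
  have h := (summable_xx ha)
  exact h.comp_injective (i := fun q : K3 => (k, q)) fun x y hxy => (Prod.mk.inj hxy).2

lemma abs_flx_le {a : Fin 3 → K3 → ℂ} (ha : Reg a) (k : K3) :
    |flx a k| ≤ kn k * nv a k * (∑' q, nv a q) ^ 2 := by
  have hn := summable_nv ha
  have h1 : ∀ q, ‖(xx a (k, q)).im‖ ≤ kn k * nv a k * (∑' q, nv a q) * nv a q := by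
    intro q
    refine (Complex.abs_im_le_norm _).trans ((norm_xx_le ha k q).trans ?_)
    have h2 : nv a (k - q) ≤ ∑' q, nv a q := hn.le_tsum _ fun _ _ => nv_nonneg _ _
    calc min (kn k) (kn q) * (nv a (k - q) * (nv a k * nv a q))
        ≤ kn k * ((∑' q, nv a q) * (nv a k * nv a q)) := by
          refine mul_le_mul (min_le_left _ _) ?_ (mul_nonneg (nv_nonneg _ _)
            (mul_nonneg (nv_nonneg _ _) (nv_nonneg _ _))) (kn_nonneg _)
          exact mul_le_mul_of_nonneg_right h2 (mul_nonneg (nv_nonneg _ _) (nv_nonneg _ _))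
      _ = _ := by ring
  have h3 := tsum_of_norm_bounded ((hn.mul_left (kn k * nv a k * ∑' q, nv a q)).hasSum) h1
  rw [Real.norm_eq_abs, tsum_mul_left] at h3
  unfold flx
  calc _ ≤ _ := h3
    _ = _ := by ring

section evo

variable {d : K3 → ℝ} {T : ℝ} {u : ℝ → V → V} {p : ℝ → V → ℝ}

/-- The evolution of the energy of a mode. -/
theorem mode_deriv (hu : SV.IsSol d T u p) {t : ℝ} (ht : t ∈ Ioo 0 T) (hr : Reg (cv (u t)))
    (k : K3) : HasDerivAt (fun s => nv (cv (u s)) k ^ 2)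
      (-2 * d k * nv (cv (u t)) k ^ 2 + 2 * flx (cv (u t)) k) t := by
  have htI : t ∈ Ico 0 T := ⟨ht.1.le, ht.2⟩
  set a := cv (u t) with ha
  set D : Fin 3 → ℂ := fun i => cf (fun x => derivWithin (fun s => u s x i) (Ico 0 T) t) k with hD
  have hder : ∀ i, HasDerivAt (fun s => cv (u s) i k) (D i) t := fun i =>
    hasDerivAt_cv hu.base ht k i
  have hut : ContDiff ℝ 1 (u t) := contDiff_slice hu.base.contDiffOn_u htI
  have hpt : ContDiff ℝ 1 (p t) := contDiff_slice hu.base.contDiffOn_p htI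
  have hup := hu.base.periodic_u t htI
  have hpp := hu.base.periodic_p t htI
  have hDeq : ∀ i, D i = -(d k : ℂ) * a i k - cf (cvt (u t) i) k
      - Complex.I * (k i : ℂ) * cf (p t) k := by
    intro i
    have h1 := hu.momentum t htI k i
    rw [cf_add (lin_continuous' hu.base htI i) (cvt_continuous hut i)] at h1
    have h2 : lin (Ico 0 T) u p t i = fun x => derivWithin (fun s => u s x i) (Ico 0 T) t
        + fderiv ℝ (p t) x (Pi.single i 1) := rfl
    rw [h2, cf_add (dtu_continuous hu.base htI i)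
      ((hpt.continuous_fderiv one_ne_zero).clm_apply continuous_const), cf_pd hpp hpt] at h1
    have h3 : D i = cf (fun x => derivWithin (fun s => u s x i) (Ico 0 T) t) k := rfl
    rw [h3]
    linear_combination h1
  have hsq : ∀ i, HasDerivAt (fun s => ‖cv (u s) i k‖ ^ 2)
      (2 * (conj (a i k) * D i).re) t := by
    intro i
    have h1 := (hder i).norm_sq
    refine h1.congr_deriv ?_
    rw [Complex.inner]
    congr 2
    exact mul_comm _ _
  have hsum : HasDerivAt (fun s => ∑ i, ‖cv (u s) i k‖ ^ 2)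
      (∑ i, 2 * (conj (a i k) * D i).re) t := HasDerivAt.fun_sum fun i _ => hsq i
  have e0 : (fun s => nv (cv (u s)) k ^ 2) = fun s => ∑ i, ‖cv (u s) i k‖ ^ 2 := by
    funext s
    rw [nv_sq]
  rw [e0]
  refine hsum.congr_deriv ?_
  -- the convection term
  have hcv : ∀ i, HasSum (fun q => (Complex.I * dt a (k - q) q) * a i q) (cf (cvt (u t) i) k) :=
    fun i => cvt_hasSum hut hup i k
  have hcs : HasSum (fun q => Complex.I * xx a (k, q)) (∑ i, conj (a i k) * cf (cvt (u t) i) k) := by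
    have h1 := hasSum_sum (s := Finset.univ) fun i (_ : i ∈ (Finset.univ : Finset (Fin 3))) =>
      (hcv i).mul_left (conj (a i k))
    refine h1.congr_fun fun q => ?_
    unfold xx
    simp only
    rw [Finset.mul_sum, Finset.mul_sum]
    exact Finset.sum_congr rfl fun i _ => by ring
  have hre : (∑ i, conj (a i k) * cf (cvt (u t) i) k).re = -flx a k := by
    have h1 := (Complex.hasSum_re hcs).tsum_eq
    rw [← h1]
    unfold flx
    rw [← tsum_neg]
    refine tsum_congr fun q => ?_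
    simp
  have hdiv : ∑ i, conj (a i k) * (k i : ℂ) = 0 := by
    have h1 := congrArg conj (hr.div k)
    unfold dt at h1
    rw [map_sum, map_zero] at h1
    rw [← h1]
    refine Finset.sum_congr rfl fun i _ => ?_
    rw [map_mul, map_intCast]
  have hA : ∑ i, conj (a i k) * D i = -(d k : ℂ) * ((nv a k ^ 2 : ℝ) : ℂ)
      - (∑ i, conj (a i k) * cf (cvt (u t) i) k)
      - Complex.I * cf (p t) k * ∑ i, conj (a i k) * (k i : ℂ) := by
    rw [nv_sq]
    push_cast
    rw [Finset.mul_sum, Finset.mul_sum, ← Finset.sum_sub_distrib, ← Finset.sum_sub_distrib]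
    refine Finset.sum_congr rfl fun i _ => ?_
    rw [hDeq, ← Complex.conj_mul']
    ring
  rw [← Finset.mul_sum, ← Complex.re_sum, hA, hdiv, mul_zero, sub_zero, Complex.sub_re, hre]
  rw [← Complex.ofReal_neg, ← Complex.ofReal_mul, Complex.ofReal_re]
  ring

end evo

end Pool.Agent.R211.WN
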