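import Pool.Agent.Y302.Tri.Main

/-!
Weighted sums over triads, estimated by the size of the smallest frequency.
-/

set_option autoImplicit false

open Set Filter Topology MeasureTheory
open scoped ComplexConjugate ENNReal

namespace Pool.Agent.R211.WN

open Pool.Agent.Y302.Trunc (K3)
open Pool.Agent.Y302.Tri

/-- The Euclidean length `|k|` of a frequency. -/
noncomputable def kn (k : K3) : ℝ := Real.sqrt (∑ j, (k j : ℝ) ^ 2)

/-- The Euclidean length `|a(k)|` of a coefficient. -/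
noncomputable def nv (a : Fin 3 → K3 → ℂ) (k : K3) : ℝ := Real.sqrt (∑ i, ‖a i k‖ ^ 2)

lemma kn_nonneg (k : K3) : 0 ≤ kn k := Real.sqrt_nonneg _

lemma nv_nonneg (a : Fin 3 → K3 → ℂ) (k : K3) : 0 ≤ nv a k := Real.sqrt_nonneg _

lemma kn_sq (k : K3) : kn k ^ 2 = ∑ j, (k j : ℝ) ^ 2 :=
  Real.sq_sqrt (Finset.sum_nonneg fun _ _ => sq_nonneg _)

lemma nv_sq (a : Fin 3 → K3 → ℂ) (k : K3) : nv a k ^ 2 = ∑ i, ‖a i k‖ ^ 2 :=
  Real.sq_sqrt (Finset.sum_nonneg fun _ _ => sq_nonneg _)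

lemma kn_neg (k : K3) : kn (-k) = kn k := by
  unfold kn
  simp

lemma kn_zero : kn 0 = 0 := by
  unfold kn
  simp

/-- The frequency as a Euclidean vector. -/
noncomputable def emb (k : K3) : EuclideanSpace ℝ (Fin 3) := WithLp.toLp 2 fun j => (k j : ℝ)

lemma norm_emb (k : K3) : ‖emb k‖ = kn k := by
  rw [EuclideanSpace.norm_eq]
  unfold kn emb
  simp

lemma emb_add (k q : K3) : emb (k + q) = emb k + emb q := by
  unfold emb
  ext j
  simp

lemma kn_add_le (k q : K3) : kn (k + q) ≤ kn k + kn q := by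
  rw [← norm_emb, ← norm_emb, ← norm_emb, emb_add]
  exact norm_add_le _ _

lemma kn_sub_comm (k q : K3) : kn (k - q) = kn (q - k) := by
  rw [← kn_neg (k - q), neg_sub]

lemma kn_le_sub_add (k q : K3) : kn k ≤ kn (k - q) + kn q := by
  have h := kn_add_le (k - q) q
  rwa [sub_add_cancel] at h

lemma abs_kn_sub_le (k q : K3) : |kn k - kn q| ≤ kn (k - q) := by
  rw [abs_le]
  have h1 := kn_le_sub_add k q
  have h2 := kn_le_sub_add q k
  rw [← kn_sub_comm k q] at h2
  constructor <;> linarith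

lemma kn_sub_le (k q : K3) : kn (k - q) ≤ kn k + kn q := by
  have h := kn_add_le k (-q)
  rwa [kn_neg, ← sub_eq_add_neg] at h

lemma one_le_kn {k : K3} (hk : k ≠ 0) : 1 ≤ kn k := by
  have h : ∃ j, k j ≠ 0 := by
    by_contra hcon
    push Not at hcon
    exact hk (funext hcon)
  obtain ⟨j, hj⟩ := h
  have h1 : (1 : ℝ) ≤ (k j : ℝ) ^ 2 := by
    have : (1 : ℤ) ≤ (k j) ^ 2 := by
      have := Int.one_le_abs hj
      nlinarith [sq_abs (k j), abs_nonneg (k j)]
    exact_mod_cast this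
  have h2 : (k j : ℝ) ^ 2 ≤ ∑ j, (k j : ℝ) ^ 2 :=
    Finset.single_le_sum (f := fun j => (k j : ℝ) ^ 2) (fun _ _ => sq_nonneg _) (Finset.mem_univ j)
  unfold kn
  rw [Real.one_le_sqrt]
  linarith

lemma nv_neg {a : Fin 3 → K3 → ℂ} (ha : Reg a) (k : K3) : nv a (-k) = nv a k := by
  unfold nv
  congr 1
  refine Finset.sum_congr rfl fun i _ => ?_
  rw [← ha.cj, RCLike.norm_conj]

lemma nv_le_sz (a : Fin 3 → K3 → ℂ) (k : K3) : nv a k ≤ sz a k := by
  unfold nv sz
  rw [Real.sqrt_le_left (Finset.sum_nonneg fun _ _ => norm_nonneg _)]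
  exact Finset.sum_sq_le_sq_sum_of_nonneg fun i _ => norm_nonneg _

lemma kn_le_N1 (k : K3) : kn k ≤ N1 k := by
  unfold kn N1
  rw [Real.sqrt_le_left (Finset.sum_nonneg fun _ _ => abs_nonneg _)]
  refine le_trans (le_of_eq ?_) (Finset.sum_sq_le_sq_sum_of_nonneg fun i _ => abs_nonneg _)
  exact Finset.sum_congr rfl fun j _ => (sq_abs _).symm

lemma norm_dt_le' (a : Fin 3 → K3 → ℂ) (p q : K3) : ‖dt a p q‖ ≤ nv a p * kn q := by
  unfold dt nv kn
  have h1 : ∀ j, ‖a j p * (q j : ℂ)‖ = ‖a j p‖ * |(q j : ℝ)| := by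
    intro j
    rw [norm_mul, Complex.norm_intCast]
  refine (norm_sum_le _ _).trans ?_
  simp only [h1]
  refine (Real.sum_mul_le_sqrt_mul_sqrt _ _ _).trans (le_of_eq ?_)
  simp only [sq_abs]

lemma norm_dot_le' (a b : Fin 3 → K3 → ℂ) (k q : K3) :
    ‖∑ i, conj (a i k) * b i q‖ ≤ nv a k * nv b q := by
  unfold nv
  refine (norm_sum_le _ _).trans ?_
  simp only [norm_mul, RCLike.norm_conj]
  exact Real.sum_mul_le_sqrt_mul_sqrt _ _ _

/-- The summand of the trilinear form. -/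
noncomputable def xx (a : Fin 3 → K3 → ℂ) (x : K3 × K3) : ℂ :=
  dt a (x.1 - x.2) x.2 * ∑ i, conj (a i x.1) * a i x.2

lemma one_weight : IsWeight (fun _ _ => 1) where
  symm _ _ := rfl
  third _ _ := rfl
  neg _ _ := rfl
  bdd := ⟨1, fun _ _ => by norm_num⟩

lemma xx_eq_tm (a : Fin 3 → K3 → ℂ) : xx a = tm (fun _ _ => 1) a a a := by
  funext x
  unfold xx tm
  simp

lemma xx_swap {a : Fin 3 → K3 → ℂ} (ha : Reg a) (x : K3 × K3) : conj (xx a x) = xx a x.swap := by
  rw [xx_eq_tm]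
  exact tm_swap one_weight ha x

lemma im_swap {a : Fin 3 → K3 → ℂ} (ha : Reg a) (x : K3 × K3) :
    (xx a x.swap).im = -(xx a x).im := by
  rw [← xx_swap ha, Complex.conj_im]

lemma dt_right {a : Fin 3 → K3 → ℂ} (ha : Reg a) (k q : K3) :
    dt a (k - q) q = dt a (k - q) k := by
  have h1 : dt a (k - q) k = dt a (k - q) (k - q) + dt a (k - q) q := by
    rw [← dt_add_right, sub_add_cancel]
  rw [h1, ha.div, zero_add]

lemma norm_xx_le {a : Fin 3 → K3 → ℂ} (ha : Reg a) (k q : K3) :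
    ‖xx a (k, q)‖ ≤ min (kn k) (kn q) * (nv a (k - q) * (nv a k * nv a q)) := by
  unfold xx
  rw [norm_mul]
  have h1 : ‖dt a (k - q) q‖ ≤ nv a (k - q) * min (kn k) (kn q) := by
    rw [mul_min_of_nonneg _ _ (nv_nonneg _ _)]
    refine le_min ?_ (norm_dt_le' _ _ _)
    rw [dt_right ha]
    exact norm_dt_le' _ _ _
  calc ‖dt a (k - q) q‖ * ‖∑ i, conj (a i k) * a i q‖
      ≤ (nv a (k - q) * min (kn k) (kn q)) * (nv a k * nv a q) :=
        mul_le_mul h1 (norm_dot_le' _ _ _ _) (norm_nonneg _)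
          (mul_nonneg (nv_nonneg _ _) (le_min (kn_nonneg _) (kn_nonneg _)))
    _ = _ := by ring

section schur

variable (h g : K3 → ℝ≥0∞)

/-- The sum of `h` over the frequencies which are not larger than `y`. -/
noncomputable def low (y : K3) : ℝ≥0∞ := ∑' z, if kn z ≤ kn y then h z else 0

/-- The basic summand. -/
noncomputable def bs (x : K3 × K3) : ℝ≥0∞ :=
  (if kn (x.1 - x.2) ≤ kn x.1 ∧ kn (x.1 - x.2) ≤ kn x.2 then h (x.1 - x.2) else 0)
    * (g x.1 * g x.2)

lemma mul_le_sq_add (s t : ℝ≥0∞) : s * t ≤ s ^ 2 + t ^ 2 := by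
  rcases le_total s t with hst | hst
  · calc s * t ≤ t * t := by gcongr
      _ = t ^ 2 := (sq t).symm
      _ ≤ _ := le_add_self
  · calc s * t ≤ s * s := by gcongr
      _ = s ^ 2 := (sq s).symm
      _ ≤ _ := le_self_add

lemma schur : ∑' x : K3 × K3, bs h g x ≤ 2 * ∑' y, g y ^ 2 * low h y := by
  have h1 : ∀ x : K3 × K3, bs h g x
      ≤ (if kn (x.1 - x.2) ≤ kn x.1 then h (x.1 - x.2) else 0) * g x.1 ^ 2
        + (if kn (x.1 - x.2) ≤ kn x.2 then h (x.1 - x.2) else 0) * g x.2 ^ 2 := by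
    intro x
    unfold bs
    split_ifs with c1 c2 c3 c4 c5 c6 c7
    · rw [← mul_add]
      gcongr
      exact mul_le_sq_add _ _
    all_goals simp_all
  refine (ENNReal.tsum_le_tsum h1).trans ?_
  rw [ENNReal.tsum_add, two_mul]
  refine add_le_add (le_of_eq ?_) (le_of_eq ?_)
  · rw [ENNReal.tsum_prod']
    refine tsum_congr fun y => ?_
    simp only
    rw [ENNReal.tsum_mul_right, mul_comm]
    congr 1
    exact (Equiv.subLeft y).tsum_eq (fun z => if kn z ≤ kn y then h z else 0)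
  · rw [ENNReal.tsum_prod', ENNReal.tsum_comm]
    refine tsum_congr fun y => ?_
    simp only
    rw [ENNReal.tsum_mul_right, mul_comm]
    congr 1
    exact (Equiv.subRight y).tsum_eq (fun z => if kn z ≤ kn y then h z else 0)

/-- `(k, q) ↦ (k, k - q)` -/
def e2 : K3 × K3 ≃ K3 × K3 where
  toFun x := (x.1, x.1 - x.2)
  invFun x := (x.1, x.1 - x.2)
  left_inv x := by simp
  right_inv x := by simp

/-- `(k, q) ↦ (k - q, -q)` -/
def e3 : K3 × K3 ≃ K3 × K3 where
  toFun x := (x.1 - x.2, -x.2)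
  invFun x := (x.1 - x.2, -x.2)
  left_inv x := by simp
  right_inv x := by simp

lemma schur_all : ∑' x : K3 × K3, (bs h g x + (bs h g (e2 x) + bs h g (e3 x)))
    ≤ 6 * ∑' y, g y ^ 2 * low h y := by
  rw [ENNReal.tsum_add, ENNReal.tsum_add, e2.tsum_eq, e3.tsum_eq]
  have := schur h g
  calc _ ≤ 2 * ∑' y, g y ^ 2 * low h y + (2 * (∑' y, g y ^ 2 * low h y)
        + 2 * ∑' y, g y ^ 2 * low h y) := by gcongr
    _ = _ := by ring

end schur

/-- The general estimate. -/
theorem tri_bound {a : Fin 3 → K3 → ℂ} (ha : Reg a) {w : K3 → ℝ} {h g : K3 → ℝ≥0∞} {C B : ℝ}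
    (hC : 0 ≤ C) (hB : 0 ≤ B)
    (hpt : ∀ k q : K3, ENNReal.ofReal (|w k - w q|
        * (min (kn k) (kn q) * (nv a (k - q) * (nv a k * nv a q))))
      ≤ ENNReal.ofReal C * (bs h g (k, q) + (bs h g (e2 (k, q)) + bs h g (e3 (k, q)))))
    (hs : Summable fun x : K3 × K3 => w x.1 * (xx a x).im)
    (hle : ∑' y, g y ^ 2 * low h y ≤ ENNReal.ofReal B) :
    |∑' x : K3 × K3, w x.1 * (xx a x).im| ≤ 3 * C * B := by
  have hs2 : Summable fun x : K3 × K3 => w x.2 * (xx a x).im := by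
    have h1 := (Equiv.prodComm K3 K3).summable_iff.2 hs
    refine (h1.neg).congr fun x => ?_
    show -(w x.swap.1 * (xx a x.swap).im) = _
    rw [im_swap ha]
    simp
  have e2' : ∑' x : K3 × K3, w x.2 * (xx a x).im = -∑' x : K3 × K3, w x.1 * (xx a x).im := by
    rw [← (Equiv.prodComm K3 K3).tsum_eq (fun x : K3 × K3 => w x.1 * (xx a x).im), ← tsum_neg]
    refine tsum_congr fun x => ?_
    show _ = -(w x.swap.1 * (xx a x.swap).im)
    rw [im_swap ha]
    simp
  set S := ∑' x : K3 × K3, w x.1 * (xx a x).im with hS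
  have e1 : 2 * S = ∑' x : K3 × K3, (w x.1 - w x.2) * (xx a x).im := by
    simp only [sub_mul]
    rw [hs.tsum_sub hs2, e2']
    ring
  have h3 : ‖2 * S‖ₑ ≤ ENNReal.ofReal C * (6 * ENNReal.ofReal B) := by
    rw [e1]
    refine enorm_tsum_le_tsum_enorm.trans ?_
    calc ∑' x : K3 × K3, ‖(w x.1 - w x.2) * (xx a x).im‖ₑ
        ≤ ∑' x : K3 × K3, ENNReal.ofReal C
            * (bs h g x + (bs h g (e2 x) + bs h g (e3 x))) := by
          refine ENNReal.tsum_le_tsum fun x => ?_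
          obtain ⟨k, q⟩ := x
          refine le_trans ?_ (hpt k q)
          rw [Real.enorm_eq_ofReal_abs, abs_mul]
          refine ENNReal.ofReal_le_ofReal ?_
          exact mul_le_mul_of_nonneg_left ((Complex.abs_im_le_norm _).trans (norm_xx_le ha k q))
            (abs_nonneg _)
      _ = ENNReal.ofReal C * ∑' x : K3 × K3, (bs h g x + (bs h g (e2 x) + bs h g (e3 x))) :=
          ENNReal.tsum_mul_left
      _ ≤ _ := by
          gcongr
          exact (schur_all h g).trans (by gcongr)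
  have h4 : ENNReal.ofReal C * (6 * ENNReal.ofReal B) = ENNReal.ofReal (C * (6 * B)) := by
    rw [ENNReal.ofReal_mul hC, ENNReal.ofReal_mul (by norm_num)]
    norm_num
  rw [h4, Real.enorm_eq_ofReal_abs, ENNReal.ofReal_le_ofReal_iff (by positivity), abs_mul,
    abs_two] at h3
  linarith

/-- Summability of the weighted form. -/
lemma summable_w {a : Fin 3 → K3 → ℂ} (ha : Reg a) {w : K3 → ℝ}
    (hw : Summable fun k => |w k| * nv a k) :
    Summable fun x : K3 × K3 => w x.1 * (xx a x).im := by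
  have hn : Summable (nv a) :=
    Summable.of_nonneg_of_le (nv_nonneg a) (nv_le_sz a) ha.sz0
  have h1 : Summable fun k => kn k * nv a k :=
    Summable.of_nonneg_of_le (fun k => mul_nonneg (kn_nonneg k) (nv_nonneg a k))
      (fun k => mul_le_mul (kn_le_N1 k) (nv_le_sz a k) (nv_nonneg _ _) (N1_nonneg k)) ha.sz1
  have h2 := (hw.mul_of_nonneg h1 (fun k => mul_nonneg (abs_nonneg _) (nv_nonneg _ _))
    (fun k => mul_nonneg (kn_nonneg k) (nv_nonneg a k))).mul_left (∑' m, nv a m)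
  refine Summable.of_norm_bounded h2 fun x => ?_
  obtain ⟨k, q⟩ := x
  rw [Real.norm_eq_abs, abs_mul]
  calc |w k| * |(xx a (k, q)).im|
      ≤ |w k| * (min (kn k) (kn q) * (nv a (k - q) * (nv a k * nv a q))) :=
        mul_le_mul_of_nonneg_left ((Complex.abs_im_le_norm _).trans (norm_xx_le ha k q))
          (abs_nonneg _)
    _ ≤ |w k| * (kn q * ((∑' m, nv a m) * (nv a k * nv a q))) := by
        refine mul_le_mul_of_nonneg_left ?_ (abs_nonneg _)
        refine mul_le_mul (min_le_right _ _) ?_ (mul_nonneg (nv_nonneg _ _)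
          (mul_nonneg (nv_nonneg _ _) (nv_nonneg _ _))) (kn_nonneg _)
        exact mul_le_mul_of_nonneg_right (hn.le_tsum _ fun _ _ => nv_nonneg _ _)
          (mul_nonneg (nv_nonneg _ _) (nv_nonneg _ _))
    _ = _ := by ring

end Pool.Agent.R211.WN
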