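import Pool.Agent.R211.WN.Evol

/-!
The window criterion.
-/

set_option autoImplicit false

open Set Filter Topology MeasureTheory
open scoped ComplexConjugate ENNReal ContDiff

namespace Pool.Agent.R211.WN

open Pool.Agent.H708R2.EulerSign (V Periodic3 Dom divergence grad contDiff_slice)
open Pool.Agent.H708R2.EulerModes
open Pool.Agent.Y302.Trunc (K3 resc resc_per resc_continuous)
open Pool.Agent.Y302.Tri
open Pool.Agent.R211.SV

/-- A continuity argument for a differential inequality. -/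
lemma boot {y y' β : ℝ → ℝ} {T Ym A ε : ℝ}
    (hc : ContinuousOn y (Ico 0 T)) (hpos : ∀ t ∈ Ico 0 T, 0 < y t)
    (hd : ∀ t ∈ Ioo 0 T, HasDerivAt y (y' t) t) (hβ : IntegrableOn β (Ioo 0 T))
    (hβ0 : ∀ t ∈ Ioo 0 T, 0 ≤ β t) (hA : 0 ≤ A) (hε : 0 ≤ ε)
    (hle : ∀ t ∈ Ioo 0 T, y t ≤ Ym → y' t ≤ (A * β t + ε) * y t)
    (hcl : y 0 * Real.exp (A * (∫ t in Ioo 0 T, β t) + ε * T) < Ym) :
    ∀ t ∈ Ico 0 T, y t < Ym := by
  intro t0 ht0
  by_contra hcon
  push Not at hcon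
  have hT : 0 < T := ht0.1.trans_lt ht0.2
  have hI0 : 0 ≤ ∫ t in Ioo 0 T, β t := setIntegral_nonneg measurableSet_Ioo hβ0
  have hsub : Icc 0 t0 ⊆ Ico 0 T := fun s hs => ⟨hs.1, hs.2.trans_lt ht0.2⟩
  have hc0 : ContinuousOn y (Icc 0 t0) := hc.mono hsub
  have hS : IsCompact (Icc 0 t0 ∩ y ⁻¹' Ici Ym) :=
    isCompact_Icc.of_isClosed_subset (hc0.preimage_isClosed_of_isClosed isClosed_Icc isClosed_Ici)
      inter_subset_left
  obtain ⟨t1, ht1, hmin⟩ := hS.exists_isLeast ⟨t0, ⟨ht0.1, le_rfl⟩, hcon⟩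
  have h1 : t1 ∈ Ico 0 T := hsub ht1.1
  have hbelow : ∀ s ∈ Ico 0 t1, y s < Ym := by
    intro s hs
    by_contra h
    push Not at h
    exact absurd (hmin ⟨⟨hs.1, hs.2.le.trans ht1.1.2⟩, h⟩) (not_le.2 hs.2)
  have hsub1 : Icc 0 t1 ⊆ Ico 0 T := fun s hs => ⟨hs.1, hs.2.trans_lt h1.2⟩
  have hint : IntegrableOn (fun t => A * β t + ε) (Icc 0 t1) := by
    rw [integrableOn_Icc_iff_integrableOn_Ioo]
    have h2 : IntegrableOn β (Ioo 0 t1) := hβ.mono_set (Ioo_subset_Ioo_right h1.2.le)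
    exact (h2.const_mul A).add (integrableOn_const (by simp))
  have h3 := intervalIntegral.sub_le_integral_of_hasDeriv_right_of_le (a := 0) (b := t1)
    (g := fun s => Real.log (y s)) (g' := fun s => y' s / y s) (φ := fun t => A * β t + ε)
    h1.1 (ContinuousOn.log (hc.mono hsub1) fun s hs => (hpos s (hsub1 hs)).ne')
    (fun s hs => by
      have hs' : s ∈ Ioo 0 T := ⟨hs.1, hs.2.trans h1.2⟩
      exact ((hd s hs').log (hpos s ⟨hs'.1.le, hs'.2⟩).ne').hasDerivWithinAt) hint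
    (fun s hs => by
      have hs' : s ∈ Ioo 0 T := ⟨hs.1, hs.2.trans h1.2⟩
      rw [div_le_iff₀ (hpos s ⟨hs'.1.le, hs'.2⟩)]
      exact hle s hs' (hbelow s ⟨hs.1.le, hs.2⟩).le)
  have h4 : ∫ t in (0 : ℝ)..t1, (A * β t + ε) ≤ A * (∫ t in Ioo 0 T, β t) + ε * T := by
    rw [intervalIntegral.integral_of_le h1.1, integral_Ioc_eq_integral_Ioo]
    have h2 : IntegrableOn β (Ioo 0 t1) := hβ.mono_set (Ioo_subset_Ioo_right h1.2.le)
    rw [integral_add (h2.const_mul A) (integrable_const _), integral_const_mul]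
    have h5 : ∫ t in Ioo 0 t1, β t ≤ ∫ t in Ioo 0 T, β t := by
      refine setIntegral_mono_set hβ ?_ (Ioo_subset_Ioo_right h1.2.le).eventuallyLE
      filter_upwards [ae_restrict_mem measurableSet_Ioo] with s hs
      exact hβ0 s hs
    have h6 : ∫ _t in Ioo 0 t1, ε = t1 * ε := by
      rw [setIntegral_const, Real.volume_real_Ioo_of_le h1.1, sub_zero, smul_eq_mul]
    rw [h6]
    have h7 := mul_le_mul_of_nonneg_left h5 hA
    have h8 := mul_le_mul_of_nonneg_right h1.2.le hε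
    linarith
  have hy1 := hpos t1 h1
  have hy0 := hpos 0 ⟨le_rfl, hT⟩
  have h9 : Real.log (y t1) ≤ Real.log (y 0) + (A * (∫ t in Ioo 0 T, β t) + ε * T) := by
    linarith
  have h10 : y t1 ≤ y 0 * Real.exp (A * (∫ t in Ioo 0 T, β t) + ε * T) := by
    have := Real.exp_le_exp.2 h9
    rwa [Real.exp_log hy1, Real.exp_add, Real.exp_log hy0] at this
  exact absurd ht1.2 (not_le.2 (h10.trans_lt hcl))

/-- Cauchy-Schwarz. -/
lemma cs {f g : K3 → ℝ} (hf0 : ∀ k, 0 ≤ f k) (hg0 : ∀ k, 0 ≤ g k)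
    (hf : Summable fun k => f k ^ 2) (hg : Summable fun k => g k ^ 2) :
    Summable (fun k => f k * g k) ∧
      ∑' k, f k * g k ≤ Real.sqrt (∑' k, f k ^ 2) * Real.sqrt (∑' k, g k ^ 2) := by
  have h : ∀ s : Finset K3, ∑ k ∈ s, f k * g k
      ≤ Real.sqrt (∑' k, f k ^ 2) * Real.sqrt (∑' k, g k ^ 2) := by
    intro s
    refine (Real.sum_mul_le_sqrt_mul_sqrt s f g).trans ?_
    refine mul_le_mul (Real.sqrt_le_sqrt ?_) (Real.sqrt_le_sqrt ?_) (Real.sqrt_nonneg _)
      (Real.sqrt_nonneg _)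
    · exact hf.sum_le_tsum s fun k _ => sq_nonneg _
    · exact hg.sum_le_tsum s fun k _ => sq_nonneg _
  have h1 : Summable (fun k => f k * g k) :=
    summable_of_sum_le (fun k => mul_nonneg (hf0 k) (hg0 k)) h
  exact ⟨h1, h1.tsum_le_of_sum_le h⟩

/-- `∑ |k|⁻⁴` -/
noncomputable def K4 : ℝ := ∑' k : K3, (kn k ^ 4)⁻¹

lemma summable_kn4 : Summable fun k : K3 => (kn k ^ 4)⁻¹ := by
  refine Summable.of_nonneg_of_le (fun k => by have := kn_nonneg k; positivity) (fun k => ?_)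
    (summable_jb2.mul_left 4)
  rcases eq_or_ne k 0 with h | h
  · rw [h, kn_zero]
    have := jb_pos 0
    simp
    positivity
  · have h1 := one_le_kn h
    have h2 : jb k ≤ 2 * kn k ^ 2 := by
      unfold jb
      rw [← kn_sq]
      nlinarith
    have h3 := jb_pos k
    have h4 : jb k ^ 2 ≤ 4 * kn k ^ 4 := by
      calc jb k ^ 2 ≤ (2 * kn k ^ 2) ^ 2 := pow_le_pow_left₀ h3.le h2 2
        _ = _ := by ring
    have h5 : 0 < kn k ^ 4 := by positivity
    have h6 : 0 < jb k ^ 2 := by positivity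
    rw [mul_one_div, inv_eq_one_div, div_le_div_iff₀ h5 h6]
    linarith

lemma K4_nonneg : 0 ≤ K4 := tsum_nonneg fun k => by have := kn_nonneg k; positivity

/-- The strain of the low modes. -/
lemma strA_low {a : Fin 3 → K3 → ℂ} (ha : Reg a) {R : ℝ} (hR : 0 ≤ R) :
    strA a R ≤ Real.sqrt K4 * R ^ 3 * Real.sqrt (zz 0 a) := by
  set f : K3 → ℝ := fun k => if kn k ≤ R then kn k else 0 with hf
  have hf0 : ∀ k, 0 ≤ f k := fun k => by
    simp only [hf]
    split_ifs
    · exact kn_nonneg k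
    · exact le_rfl
  have hfle : ∀ k, f k ^ 2 ≤ R ^ 6 * (kn k ^ 4)⁻¹ := by
    intro k
    have hk := kn_nonneg k
    simp only [hf]
    split_ifs with h
    · rcases eq_or_lt_of_le hk with h0 | h0
      · rw [← h0]; simp
      · rw [← div_eq_mul_inv, le_div_iff₀ (by positivity)]
        calc kn k ^ 2 * kn k ^ 4 = kn k ^ 6 := by ring
          _ ≤ R ^ 6 := pow_le_pow_left₀ hk h 6
    · rw [zero_pow two_ne_zero]; positivity
  have hfs : Summable fun k => f k ^ 2 :=
    Summable.of_nonneg_of_le (fun k => sq_nonneg _) hfle (summable_kn4.mul_left _)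
  obtain ⟨-, h1⟩ := cs hf0 (nv_nonneg a) hfs (summable_nv2 ha)
  have e1 : strA a R = ∑' k, f k * nv a k := by
    unfold strA sumB
    refine tsum_congr fun k => ?_
    simp only [hf]
    split_ifs <;> simp
  have e2 : zz 0 a = ∑' k, nv a k ^ 2 := by
    unfold zz
    simp
  rw [e1, e2]
  refine h1.trans (mul_le_mul_of_nonneg_right ?_ (Real.sqrt_nonneg _))
  have h2 : ∑' k, f k ^ 2 ≤ R ^ 6 * K4 := by
    unfold K4
    rw [← tsum_mul_left]
    exact hfs.tsum_le_tsum hfle (summable_kn4.mul_left _)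
  calc Real.sqrt (∑' k, f k ^ 2) ≤ Real.sqrt (R ^ 6 * K4) := Real.sqrt_le_sqrt h2
    _ = _ := by
        rw [Real.sqrt_mul (by positivity), show R ^ 6 = (R ^ 3) ^ 2 by ring,
          Real.sqrt_sq (by positivity)]
        ring

/-- The strain of the high modes. -/
lemma strA_high {a : Fin 3 → K3 → ℂ} (ha : Reg a) {s : ℕ} (hs : 3 ≤ s) {L : ℝ} (hL : 0 < L)
    (hw : Summable fun k => kn k ^ (2 * s) * nv a k ^ 2) (R : ℝ) :
    strA a R ≤ strA a L + Real.sqrt K4 * (L ^ (s - 3))⁻¹ * Real.sqrt (zz s a) := by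
  set f : K3 → ℝ := fun k => if L < kn k then kn k * (kn k ^ s)⁻¹ else 0 with hf
  have hf0 : ∀ k, 0 ≤ f k := fun k => by
    have := kn_nonneg k
    simp only [hf]
    split_ifs <;> positivity
  have hfle : ∀ k, f k ^ 2 ≤ (L ^ (s - 3))⁻¹ ^ 2 * (kn k ^ 4)⁻¹ := by
    intro k
    have hk := kn_nonneg k
    simp only [hf]
    split_ifs with h
    · have h0 : 0 < kn k := hL.trans h
      have e : (kn k * (kn k ^ s)⁻¹) ^ 2 = ((kn k ^ (s - 3))⁻¹) ^ 2 * (kn k ^ 4)⁻¹ := by
        obtain ⟨m, rfl⟩ := Nat.exists_eq_add_of_le hs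
        rw [Nat.add_sub_cancel_left, pow_add]
        field_simp
      rw [e]
      refine mul_le_mul_of_nonneg_right ?_ (by positivity)
      refine pow_le_pow_left₀ (by positivity) ?_ 2
      exact inv_anti₀ (by positivity) (pow_le_pow_left₀ hL.le h.le _)
    · rw [zero_pow two_ne_zero]; positivity
  have hfs : Summable fun k => f k ^ 2 :=
    Summable.of_nonneg_of_le (fun k => sq_nonneg _) hfle (summable_kn4.mul_left _)
  have hg0 : ∀ k, 0 ≤ kn k ^ s * nv a k := fun k =>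
    mul_nonneg (pow_nonneg (kn_nonneg k) _) (nv_nonneg a k)
  have hgs : Summable fun k => (kn k ^ s * nv a k) ^ 2 := hw.congr fun k => by ring
  obtain ⟨h0, h1⟩ := cs hf0 hg0 hfs hgs
  have e2 : ∑' k, (kn k ^ s * nv a k) ^ 2 = zz s a := by
    unfold zz
    exact tsum_congr fun k => by ring
  rw [e2] at h1
  have h2 : ∑' k, f k ^ 2 ≤ (L ^ (s - 3))⁻¹ ^ 2 * K4 := by
    unfold K4
    rw [← tsum_mul_left]
    exact hfs.tsum_le_tsum hfle (summable_kn4.mul_left _)
  have h3 : Real.sqrt (∑' k, f k ^ 2) ≤ Real.sqrt K4 * (L ^ (s - 3))⁻¹ := by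
    calc Real.sqrt (∑' k, f k ^ 2) ≤ Real.sqrt ((L ^ (s - 3))⁻¹ ^ 2 * K4) := Real.sqrt_le_sqrt h2
      _ = _ := by
          rw [Real.sqrt_mul (by positivity), Real.sqrt_sq (by positivity)]
          ring
  have h4 : strA a R ≤ strA a L + ∑' k, f k * (kn k ^ s * nv a k) := by
    unfold strA sumB
    have i1 := summable_ball (summable_knnv ha) (knnv_nonneg a) L
    rw [← i1.tsum_add h0]
    refine (summable_ball (summable_knnv ha) (knnv_nonneg a) R).tsum_le_tsum (fun k => ?_)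
      (i1.add h0)
    have hkn := knnv_nonneg a k
    by_cases c1 : kn k ≤ L
    · have hp := mul_nonneg (hf0 k) (hg0 k)
      rw [if_pos c1]
      split_ifs
      · linarith
      · linarith
    · have c2 : L < kn k := not_le.1 c1
      have h0' : 0 < kn k := hL.trans c2
      have e : f k * (kn k ^ s * nv a k) = kn k * nv a k := by
        simp only [hf, if_pos c2]
        field_simp
      rw [if_neg c1, e, zero_add]
      split_ifs
      · exact le_rfl
      · exact hkn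
  refine h4.trans (add_le_add le_rfl (h1.trans ?_))
  exact mul_le_mul_of_nonneg_right h3 (Real.sqrt_nonneg _)

end Pool.Agent.R211.WN
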