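import Pool.Agent.R211.WN.Win

/-!
The window criterion: the main theorem.
-/

set_option autoImplicit false

open Set Filter Topology MeasureTheory
open scoped ComplexConjugate ENNReal ContDiff

namespace Pool.Agent.R211.WN

open Pool.Agent.H708R2.EulerSign (V Periodic3 Dom divergence grad contDiff_slice)
open Pool.Agent.H708R2.EulerModes
open Pool.Agent.Y302.Trunc (K3 resc resc_per resc_continuous)
open Pool.Agent.Y302.Tri
open Pool.Agent.R211.SV

/-- The rate at a fixed time. -/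
lemma win_rate {a : Fin 3 → K3 → ℂ} (ha : Reg a) {s n : ℕ} (hs : 3 ≤ s) (hn : 5 + 2 * s ≤ n)
    {C : ℝ} (h : RB n C a) {d : K3 → ℝ} {ν c A β N L E : ℝ} (hν : 0 < ν) (hA : 0 ≤ A) (hc0 : 0 ≤ c)
    (hAc : A * c ≤ 1) (hN : 1 ≤ N) (hNL : N ≤ L) (hβ : 0 ≤ β) (hE : zz 0 a ≤ E)
    (hd : ∀ k, ν * kn k ^ 2 ≤ d k)
    (hds : Summable fun k => (-2 * d k + A * strA a (kn k)) * (kn k ^ (2 * s) * nv a k ^ 2))
    (hw : ∀ R ∈ Icc N L, strA a R ≤ c * ν * R ^ 2 + β) :
    ∑' k, (-2 * d k + A * strA a (kn k)) * (kn k ^ (2 * s) * nv a k ^ 2)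
      ≤ A * (β + Real.sqrt K4 * (L ^ (s - 3))⁻¹ * Real.sqrt (zz s a)) * zz s a
        + A * (Real.sqrt K4 * N ^ 3 * Real.sqrt E) * N ^ (2 * s) * E := by
  have hL : 0 < L := by linarith
  have hws : Summable fun k => kn k ^ (2 * s) * nv a k ^ 2 := h.summable_w2 (by omega)
  have hw0 : Summable fun k => nv a k ^ 2 := summable_nv2 ha
  set H := Real.sqrt K4 * (L ^ (s - 3))⁻¹ * Real.sqrt (zz s a) with hH
  have hH0 : 0 ≤ H := by positivity
  set G := Real.sqrt K4 * N ^ 3 * Real.sqrt E with hG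
  have hG0 : 0 ≤ G := by positivity
  have hlow : strA a N ≤ G := by
    refine (strA_low ha (by linarith)).trans ?_
    exact mul_le_mul_of_nonneg_left (Real.sqrt_le_sqrt hE) (by positivity)
  have hsm := fun {r s : ℝ} (hrs : r ≤ s) =>
    sumB_mono (summable_knnv ha) (knnv_nonneg a) hrs
  have hpt : ∀ k, (-2 * d k + A * strA a (kn k)) * (kn k ^ (2 * s) * nv a k ^ 2)
      ≤ A * (β + H) * (kn k ^ (2 * s) * nv a k ^ 2) + A * G * N ^ (2 * s) * nv a k ^ 2 := by
    intro k
    have hW : 0 ≤ kn k ^ (2 * s) * nv a k ^ 2 :=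
      mul_nonneg (pow_nonneg (kn_nonneg k) _) (sq_nonneg _)
    have hn2 := sq_nonneg (nv a k)
    have hdk := hd k
    have hk2 : 0 ≤ ν * kn k ^ 2 := by positivity
    have hp1 : 0 ≤ A * (β + H) * (kn k ^ (2 * s) * nv a k ^ 2) := by positivity
    have hp2 : 0 ≤ A * G * N ^ (2 * s) * nv a k ^ 2 := by positivity
    rcases le_or_gt (kn k) N with c1 | c1
    · have h1 : strA a (kn k) ≤ G := (hsm c1).trans hlow
      have h2 : -2 * d k + A * strA a (kn k) ≤ A * G := by
        have := mul_le_mul_of_nonneg_left h1 hA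
        linarith
      calc _ ≤ A * G * (kn k ^ (2 * s) * nv a k ^ 2) := mul_le_mul_of_nonneg_right h2 hW
        _ ≤ A * G * (N ^ (2 * s) * nv a k ^ 2) := by
            refine mul_le_mul_of_nonneg_left ?_ (by positivity)
            exact mul_le_mul_of_nonneg_right (pow_le_pow_left₀ (kn_nonneg k) c1 _) hn2
        _ = A * G * N ^ (2 * s) * nv a k ^ 2 := by ring
        _ ≤ _ := le_add_of_nonneg_left hp1
    · have key : strA a (kn k) ≤ c * ν * kn k ^ 2 + β + H := by
        rcases le_or_gt (kn k) L with c2 | c2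
        · have := hw (kn k) ⟨c1.le, c2⟩
          linarith
        · have h1 := strA_high ha hs hL hws (kn k)
          have h2 := hw L ⟨hNL, le_rfl⟩
          have h3 : c * ν * L ^ 2 ≤ c * ν * kn k ^ 2 := by
            refine mul_le_mul_of_nonneg_left ?_ (by positivity)
            exact pow_le_pow_left₀ hL.le c2.le 2
          linarith
      have h2 : -2 * d k + A * strA a (kn k) ≤ A * (β + H) := by
        have h3 := mul_le_mul_of_nonneg_left key hA
        have h4 : A * (c * ν * kn k ^ 2) ≤ 1 * (ν * kn k ^ 2) := by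
          calc A * (c * ν * kn k ^ 2) = (A * c) * (ν * kn k ^ 2) := by ring
            _ ≤ _ := mul_le_mul_of_nonneg_right hAc hk2
        have e : A * (c * ν * kn k ^ 2 + β + H) = A * (c * ν * kn k ^ 2) + A * (β + H) := by ring
        linarith
      calc _ ≤ A * (β + H) * (kn k ^ (2 * s) * nv a k ^ 2) := mul_le_mul_of_nonneg_right h2 hW
        _ ≤ _ := le_add_of_nonneg_right hp2
  have hr : Summable fun k => A * (β + H) * (kn k ^ (2 * s) * nv a k ^ 2)
      + A * G * N ^ (2 * s) * nv a k ^ 2 := (hws.mul_left _).add (hw0.mul_left _)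
  refine (hds.tsum_le_tsum hpt hr).trans ?_
  rw [(hws.mul_left _).tsum_add (hw0.mul_left _), tsum_mul_left, tsum_mul_left]
  have e0 : ∑' k, nv a k ^ 2 = zz 0 a := by
    unfold zz
    simp
  rw [e0]
  refine add_le_add le_rfl ?_
  exact mul_le_mul_of_nonneg_left hE (by positivity)



lemma abs_le_tsum {f : V → ℝ} (hp : Periodic3 f) (hc : Continuous f)
    (hs : Summable fun k => ‖cf f k‖) (x : V) : |f x| ≤ ∑' k, ‖cf f k‖ := by
  have h1 := H459R3.NS.hasSum_fc (resc_per hp) (resc_continuous hc) hs.of_norm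
    ((2 * Real.pi)⁻¹ • x)
  have h2 : resc f ((2 * Real.pi)⁻¹ • x) = (f x : ℂ) := by
    unfold resc
    rw [smul_smul, mul_inv_cancel₀ (by positivity), one_smul]
  rw [h2] at h1
  have h3 := tsum_of_norm_bounded (f := fun k => H459R3.NS.fc (resc f) k
    * H459R3.NS.ee k ((2 * Real.pi)⁻¹ • x)) hs.hasSum (fun k => by
      rw [norm_mul, H459R3.NS.norm_ee, mul_one]
      exact le_rfl)
  rw [h1.tsum_eq, Complex.norm_real] at h3
  exact h3

/-- The supremum norm. -/
lemma tsum_nv_le {a : Fin 3 → K3 → ℂ} (ha : Reg a) {s : ℕ} (hs : 2 ≤ s)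
    (hw : Summable fun k => kn k ^ (2 * s) * nv a k ^ 2) :
    ∑' k, nv a k ≤ Real.sqrt (zz 0 a) + Real.sqrt K4 * Real.sqrt (zz s a) := by
  set f : K3 → ℝ := fun k => (kn k ^ s)⁻¹ with hf
  have hf0 : ∀ k, 0 ≤ f k := fun k => by
    have := kn_nonneg k
    simp only [hf]
    positivity
  have hfle : ∀ k, f k ^ 2 ≤ (kn k ^ 4)⁻¹ := by
    intro k
    simp only [hf]
    rcases eq_or_ne k 0 with h | h
    · rw [h, kn_zero]
      simp [show s ≠ 0 by omega]
    · have h1 := one_le_kn h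
      rw [← inv_pow, ← pow_mul, inv_pow]
      refine inv_anti₀ (by positivity) (pow_le_pow_right₀ h1 (by omega))
  have hfs : Summable fun k => f k ^ 2 :=
    Summable.of_nonneg_of_le (fun k => sq_nonneg _) hfle summable_kn4
  have hg0 : ∀ k, 0 ≤ kn k ^ s * nv a k := fun k =>
    mul_nonneg (pow_nonneg (kn_nonneg k) _) (nv_nonneg a k)
  have hgs : Summable fun k => (kn k ^ s * nv a k) ^ 2 := hw.congr fun k => by ring
  obtain ⟨h0, h1⟩ := cs hf0 hg0 hfs hgs
  have e2 : ∑' k, (kn k ^ s * nv a k) ^ 2 = zz s a := by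
    unfold zz
    exact tsum_congr fun k => by ring
  rw [e2] at h1
  have h2 : Real.sqrt (∑' k, f k ^ 2) ≤ Real.sqrt K4 :=
    Real.sqrt_le_sqrt (hfs.tsum_le_tsum hfle summable_kn4)
  have h3 : nv a 0 ≤ Real.sqrt (zz 0 a) := by
    refine Real.le_sqrt_of_sq_le ?_
    unfold zz
    simp only [mul_zero, pow_zero, one_mul]
    exact (summable_nv2 ha).le_tsum 0 fun k _ => sq_nonneg _
  have h4 : ∑' k, nv a k ≤ nv a 0 + ∑' k, f k * (kn k ^ s * nv a k) := by
    have i1 : Summable fun k : K3 => if k = 0 then nv a 0 else 0 :=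
      summable_of_ne_finset_zero (s := {0}) fun k hk => by
        rw [if_neg (by simpa using hk)]
    have e1 : ∑' k : K3, (if k = 0 then nv a 0 else 0) = nv a 0 := by
      rw [tsum_ite_eq]
    rw [← e1, ← i1.tsum_add h0]
    refine (summable_nv ha).tsum_le_tsum (fun k => ?_) (i1.add h0)
    have hp := mul_nonneg (hf0 k) (hg0 k)
    by_cases hk : k = 0
    · rw [if_pos hk, hk]
      rw [hk] at hp
      linarith
    · have h5 := one_le_kn hk
      rw [if_neg hk, zero_add]
      refine le_of_eq ?_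
      simp only [hf]
      field_simp
  refine h4.trans (add_le_add h3 (h1.trans ?_))
  exact mul_le_mul_of_nonneg_right h2 (Real.sqrt_nonneg _)

section main

variable {d : K3 → ℝ} {T : ℝ} {u : ℝ → V → V} {p : ℝ → V → ℝ} {D : ℝ} {K : ℕ}

lemma exists_RB (hu : IsSmoothSol d T u p) {t : ℝ} (ht : t ∈ Ico 0 T) (n : ℕ) :
    ∃ C, RB n C (cv (u t)) := by
  obtain ⟨b, hb1, hb2⟩ := exists_between ht.2
  obtain ⟨C, hC⟩ := unif_cv hb2 hu.smooth_u hu.sol.base.periodic_u n
  exact ⟨C, hC t ⟨ht.1, hb1.le⟩⟩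

/-- The energy does not increase. -/
lemma energy_le (hd0 : ∀ k, 0 ≤ d k) (hd : ∀ k, |d k| ≤ D * (1 + N1 k) ^ K)
    (hu : IsSmoothSol d T u p) {t : ℝ} (ht : t ∈ Ico 0 T) :
    zz 0 (cv (u t)) ≤ zz 0 (cv (u 0)) := by
  have hanti : AntitoneOn (fun τ => zz 0 (cv (u τ))) (Ico 0 T) := by
    refine antitoneOn_of_deriv_nonpos (convex_Ico _ _) (zz_continuousOn hu 0) ?_ ?_
    · intro s hs
      rw [interior_Ico] at hs
      exact (zz_deriv hd hu 0 hs).differentiableAt.differentiableWithinAt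
    · intro s hs
      rw [interior_Ico] at hs
      rw [(zz_deriv hd hu 0 hs).deriv]
      have hsI : s ∈ Ico 0 T := ⟨hs.1.le, hs.2⟩
      obtain ⟨C, hC⟩ := exists_RB hu hsI (5 + K)
      have ha := reg_of_RB hu.sol hsI (hC.mono (by omega))
      have h1 : ∑' k, flx (cv (u s)) k = 0 := by
        have h2 := tsum_w_flx ha (w := fun _ => 1) (by simpa using summable_nv ha)
        simp only [one_mul] at h2
        rw [← h2, tri_one ha]
      have s1 := summable_dterm (s := 0) hd (by omega) hC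
      have s2 : Summable fun k => flx (cv (u s)) k := (summable_xx ha).prod
      have e1 : ∀ k, kn k ^ (2 * 0) * (-2 * d k * nv (cv (u s)) k ^ 2 + 2 * flx (cv (u s)) k)
          = -2 * (d k * (kn k ^ (2 * 0) * nv (cv (u s)) k ^ 2)) + 2 * flx (cv (u s)) k := by
        intro k; simp; ring
      simp_rw [e1]
      rw [(s1.mul_left (-2)).tsum_add (s2.mul_left 2), tsum_mul_left, tsum_mul_left, h1]
      have h3 : 0 ≤ ∑' k, d k * (kn k ^ (2 * 0) * nv (cv (u s)) k ^ 2) :=
        tsum_nonneg fun k => mul_nonneg (hd0 k)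
          (mul_nonneg (pow_nonneg (kn_nonneg k) _) (sq_nonneg _))
      linarith
  exact hanti ⟨le_rfl, ht.1.trans_lt ht.2⟩ ht ht.1

/-- The constant of the window criterion. -/
noncomputable def As (s : ℕ) : ℝ := 12 * s * 2 ^ s

lemma As_pos {s : ℕ} (hs : 1 ≤ s) : 0 < As s := by
  unfold As
  have : (0 : ℝ) < s := by exact_mod_cast hs
  positivity

/-- The growth exponent. -/
lemma rho_le {γ N : ℝ} (hN : 1 ≤ N) {m : ℕ} (hm : 3 * γ + 2 ≤ m * (γ - 1)) :
    (N ^ γ) ^ 3 * N * (N / N ^ γ) ^ m ≤ N⁻¹ := by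
  have hN0 : 0 < N := by linarith
  have e1 : (N ^ γ) ^ 3 * N * (N / N ^ γ) ^ m = N ^ (3 * γ + 1 + m * (1 - γ)) := by
    rw [Real.rpow_add hN0, Real.rpow_add hN0, Real.rpow_one, ← Real.rpow_natCast (N ^ γ) 3,
      ← Real.rpow_mul hN0.le]
    congr 1
    · congr 2
      push_cast
      ring
    · have e2 : N / N ^ γ = N ^ (1 - γ) := by
        rw [Real.rpow_sub hN0, Real.rpow_one]
      rw [e2, ← Real.rpow_natCast (N ^ (1 - γ)) m, ← Real.rpow_mul hN0.le, mul_comm]
  rw [e1, ← Real.rpow_neg_one N]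
  exact Real.rpow_le_rpow_of_exponent_le hN (by linarith)

/-- The window criterion, for a fixed power. -/
theorem window_m {γ : ℝ} (hγ : 1 < γ) {m : ℕ} (hm : 3 * γ + 2 ≤ m * (γ - 1)) (hm3 : 3 ≤ m)
    {ν : ℝ} (hν : 0 < ν) (hd : ∀ k, |d k| ≤ D * (1 + N1 k) ^ K)
    (hdν : ∀ k, ν * kn k ^ 2 ≤ d k) (hu : IsSmoothSol d T u p)
    (hwin : ∀ N₀ : ℝ, ∃ N, N₀ ≤ N ∧ ∃ β : ℝ → ℝ, IntegrableOn β (Ioo 0 T) ∧
      ∫ t in Ioo 0 T, β t ≤ (As (2 * m))⁻¹ * Real.log N ∧
      ∀ t ∈ Ioo 0 T, 0 ≤ β t ∧ ∀ R ∈ Icc N (N ^ γ),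
        strA (cv (u t)) R ≤ (As (2 * m))⁻¹ * ν * R ^ 2 + β t) :
    ∃ B, ∀ t ∈ Ico 0 T, ∀ x i, |u t x i| ≤ B := by
  rcases le_or_gt T 0 with hT | hT
  · exact ⟨0, fun t ht => absurd (ht.1.trans_lt ht.2) (not_lt.2 hT)⟩
  have h0I : (0 : ℝ) ∈ Ico 0 T := ⟨le_rfl, hT⟩
  set s := 2 * m with hs
  set A := As s with hAdef
  have hA : 0 < A := As_pos (by omega)
  have hd0 : ∀ k, 0 ≤ d k := fun k => (by positivity : 0 ≤ ν * kn k ^ 2).trans (hdν k)
  set E0 := zz 0 (cv (u 0)) with hE0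
  have hE0n : 0 ≤ E0 := zz_nonneg _ _
  set z0 := zz s (cv (u 0)) with hz0
  have hz0n : 0 ≤ z0 := zz_nonneg _ _
  set q0 : ℝ := 3 * A * Real.sqrt K4 * Real.sqrt (E0 + 1) with hq0
  have hq0n : 0 ≤ q0 := by positivity
  have hlog2 : 0 < Real.log 2 := Real.log_pos (by norm_num)
  obtain ⟨N, hNN, β, hβi, hβI, hβw⟩ := hwin (1 + z0 + q0 * T / Real.log 2)
  have hN1 : 1 ≤ N := by
    have : 0 ≤ q0 * T / Real.log 2 := by positivity
    linarith
  have hN0 : 0 < N := by linarith
  set L := N ^ γ with hL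
  have hNL : N ≤ L := by
    calc N = N ^ (1 : ℝ) := (Real.rpow_one N).symm
      _ ≤ _ := Real.rpow_le_rpow_of_exponent_le hN1 hγ.le
  have hL0 : 0 < L := by linarith
  set q := N / L with hq
  have hq0' : 0 < q := by positivity
  have hq1 : q ≤ 1 := by rw [hq, div_le_one hL0]; exact hNL
  have hρ : L ^ 3 * N * q ^ m ≤ N⁻¹ := rho_le hN1 hm
  set P := (N * L) ^ s * (E0 + 1) with hP
  have hP0 : 0 < P := by positivity
  set Ym := 4 * P * N with hYm
  set ε := q0 * N⁻¹ with hε
  have hε0 : 0 ≤ ε := by positivity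
  set y : ℝ → ℝ := fun t => zz s (cv (u t)) + P with hy
  set y' : ℝ → ℝ := fun t => ∑' k, kn k ^ (2 * s) * (-2 * d k * nv (cv (u t)) k ^ 2
    + 2 * flx (cv (u t)) k) with hy'
  have hεT : ε * T < Real.log 2 := by
    have h1 : q0 * T / Real.log 2 < N := by linarith
    rw [div_lt_iff₀ hlog2] at h1
    rw [hε, mul_assoc, mul_comm N⁻¹ T, ← mul_assoc, ← div_eq_mul_inv, div_lt_iff₀ hN0]
    linarith
  have hy0 : y 0 ≤ 2 * P := by
    have h1 : z0 ≤ P := by
      calc z0 ≤ N := by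
            have : 0 ≤ q0 * T / Real.log 2 := by positivity
            linarith
        _ ≤ N * L := by nlinarith
        _ ≤ (N * L) ^ s := by
            refine le_self_pow₀ ?_ (by omega)
            nlinarith
        _ ≤ _ := by
            rw [hP]
            have : 0 < (N * L) ^ s := by positivity
            nlinarith
    show zz s (cv (u 0)) + P ≤ 2 * P
    linarith
  have key := boot (y := y) (y' := y') (β := β) (T := T) (Ym := Ym) (A := A) (ε := ε)
    ((zz_continuousOn hu s).add continuousOn_const)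
    (fun t _ => by
      have := zz_nonneg s (cv (u t))
      show 0 < zz s (cv (u t)) + P
      linarith)
    (fun t ht => (zz_deriv hd hu s ht).add_const P) hβi (fun t ht => (hβw t ht).1) hA.le hε0
    (fun t ht hyt => ?_) ?_
  · -- conclusion
    refine ⟨Real.sqrt E0 + Real.sqrt K4 * Real.sqrt Ym, fun t ht x i => ?_⟩
    obtain ⟨C, hC⟩ := exists_RB hu ht (5 + 2 * s)
    have ha := reg_of_RB hu.sol ht (hC.mono (by omega))
    have h1 := key t ht
    have h2 : zz s (cv (u t)) ≤ Ym := by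
      have h3 : zz s (cv (u t)) + P < Ym := h1
      linarith
    have hui : Continuous fun x => u t x i :=
      (continuous_apply i).comp (contDiff_slice hu.sol.base.contDiffOn_u ht).continuous
    have hsum : Summable fun k => ‖cf (fun x => u t x i) k‖ := ha.s0 i
    refine (abs_le_tsum (comp_periodic (hu.sol.base.periodic_u t ht) i) hui hsum x).trans ?_
    have h4 : ∑' k, ‖cf (fun x => u t x i) k‖ ≤ ∑' k, nv (cv (u t)) k := by
      refine hsum.tsum_le_tsum (fun k => ?_) (summable_nv ha)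
      unfold nv
      refine Real.le_sqrt_of_sq_le ?_
      exact Finset.single_le_sum (f := fun i => ‖cv (u t) i k‖ ^ 2) (fun _ _ => sq_nonneg _)
        (Finset.mem_univ i)
    refine h4.trans ((tsum_nv_le ha (s := s) (by omega) (hC.summable_w2 (by omega))).trans ?_)
    refine add_le_add (Real.sqrt_le_sqrt (energy_le hd0 hd hu ht)) ?_
    exact mul_le_mul_of_nonneg_left (Real.sqrt_le_sqrt h2) (Real.sqrt_nonneg _)
  · -- the rate
    have htI : t ∈ Ico 0 T := ⟨ht.1.le, ht.2⟩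
    obtain ⟨C, hC⟩ := exists_RB hu htI (5 + 2 * s + K)
    have ha := reg_of_RB hu.sol htI (hC.mono (by omega))
    have hE := energy_le hd0 hd hu htI
    have hzP : zz s (cv (u t)) ≤ y t := by
      show _ ≤ zz s (cv (u t)) + P
      linarith
    have hPy : P ≤ y t := by
      have := zz_nonneg s (cv (u t))
      show _ ≤ zz s (cv (u t)) + P
      linarith
    have hzn := zz_nonneg s (cv (u t))
    have hβt := (hβw t ht).1
    have r1 := zz_rate hd (s := s) (by omega) le_rfl ha hC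
    have s1 := summable_dterm (s := s) hd le_rfl hC
    have s2 := summable_sterm (s := s) (n := 5 + 2 * s + K) (by omega) ha hC
    have hds : Summable fun k => (-2 * d k + A * strA (cv (u t)) (kn k))
        * (kn k ^ (2 * s) * nv (cv (u t)) k ^ 2) := by
      refine ((s1.mul_left (-2)).add (s2.mul_left A)).congr fun k => ?_
      ring
    have r2 := win_rate ha (s := s) (by omega) (n := 5 + 2 * s + K) (by omega) hC hν hA.le
      (inv_nonneg.2 hA.le) (mul_inv_cancel₀ hA.ne').le hN1 hNL hβt hE hdν hds (hβw t ht).2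
    have r3 : y' t ≤ A * (β t + Real.sqrt K4 * (L ^ (s - 3))⁻¹ * Real.sqrt (zz s (cv (u t))))
        * zz s (cv (u t)) + A * (Real.sqrt K4 * N ^ 3 * Real.sqrt E0) * N ^ (2 * s) * E0 := by
      have e : As s = 12 * s * 2 ^ s := rfl
      refine le_trans ?_ r2
      refine r1.trans (le_of_eq ?_)
      rw [hAdef, e]
    refine r3.trans ?_
    -- the two small terms
    have hsq : Real.sqrt (zz s (cv (u t))) ≤ 2 * Real.sqrt (E0 + 1) * ((N * L) ^ m * N) := by
      refine Real.sqrt_le_iff.2 ⟨by positivity, ?_⟩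
      have e1 : (2 * Real.sqrt (E0 + 1) * ((N * L) ^ m * N)) ^ 2 = 4 * P * N * N := by
        rw [hP, hs, mul_pow, mul_pow, Real.sq_sqrt (by linarith), mul_pow, ← pow_mul,
          mul_comm m 2]
        ring
      rw [e1]
      refine hzP.trans (hyt.trans ?_)
      rw [hYm]
      have : 0 ≤ 4 * P * N := by positivity
      nlinarith
    have t1 : A * (Real.sqrt K4 * (L ^ (s - 3))⁻¹ * Real.sqrt (zz s (cv (u t))))
        ≤ 2 * A * Real.sqrt K4 * Real.sqrt (E0 + 1) * N⁻¹ := by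
      have e2 : (L ^ (s - 3))⁻¹ * (N * L) ^ m = L ^ 3 * q ^ m := by
        have h5 : L ^ (s - 3) * L ^ 3 = L ^ m * L ^ m := by
          rw [← pow_add, ← pow_add, hs]
          congr 1
          omega
        rw [hq, div_pow, mul_pow, inv_mul_eq_div, mul_div_assoc', div_eq_div_iff (by positivity)
          (by positivity)]
        calc N ^ m * L ^ m * L ^ m = N ^ m * (L ^ m * L ^ m) := by ring
          _ = N ^ m * (L ^ (s - 3) * L ^ 3) := by rw [h5]
          _ = _ := by ring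
      calc A * (Real.sqrt K4 * (L ^ (s - 3))⁻¹ * Real.sqrt (zz s (cv (u t))))
          ≤ A * (Real.sqrt K4 * (L ^ (s - 3))⁻¹
            * (2 * Real.sqrt (E0 + 1) * ((N * L) ^ m * N))) := by gcongr
        _ = 2 * A * Real.sqrt K4 * Real.sqrt (E0 + 1) * (((L ^ (s - 3))⁻¹ * (N * L) ^ m) * N) := by
            ring
        _ = 2 * A * Real.sqrt K4 * Real.sqrt (E0 + 1) * (L ^ 3 * N * q ^ m) := by
            rw [e2]; ring
        _ ≤ _ := by gcongr
    have t2 : A * (Real.sqrt K4 * N ^ 3 * Real.sqrt E0) * N ^ (2 * s) * E0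
        ≤ A * Real.sqrt K4 * Real.sqrt (E0 + 1) * N⁻¹ * P := by
      have h5 : N ^ 3 * N ^ (2 * s) ≤ N⁻¹ * (N * L) ^ s := by
        have h6 : N ^ (2 * s) = (N * L) ^ s * q ^ s := by
          rw [← mul_pow, hq]
          have : N * L * (N / L) = N ^ 2 := by field_simp
          rw [this, ← pow_mul]
        have h7 : q ^ s ≤ q ^ m := pow_le_pow_of_le_one hq0'.le hq1 (by omega)
        have h8 : N ^ 3 ≤ L ^ 3 * N := by
          have : N ^ 3 ≤ L ^ 3 := pow_le_pow_left₀ hN0.le hNL 3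
          nlinarith [pow_pos hL0 3]
        calc N ^ 3 * N ^ (2 * s) = (N * L) ^ s * (N ^ 3 * q ^ s) := by rw [h6]; ring
          _ ≤ (N * L) ^ s * ((L ^ 3 * N) * q ^ m) := by gcongr
          _ ≤ (N * L) ^ s * N⁻¹ := by gcongr
          _ = _ := mul_comm _ _
      calc A * (Real.sqrt K4 * N ^ 3 * Real.sqrt E0) * N ^ (2 * s) * E0
          = A * Real.sqrt K4 * (Real.sqrt E0 * E0) * (N ^ 3 * N ^ (2 * s)) := by ring
        _ ≤ A * Real.sqrt K4 * (Real.sqrt (E0 + 1) * (E0 + 1)) * (N⁻¹ * (N * L) ^ s) := by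
            gcongr <;> linarith
        _ = _ := by rw [hP]; ring
    set zt := zz s (cv (u t)) with hzt
    set X := Real.sqrt K4 * (L ^ (s - 3))⁻¹ * Real.sqrt zt with hX
    have hyt0 : 0 ≤ y t := hzn.trans hzP
    calc A * (β t + X) * zt + A * (Real.sqrt K4 * N ^ 3 * Real.sqrt E0) * N ^ (2 * s) * E0
        ≤ (A * β t + 2 * A * Real.sqrt K4 * Real.sqrt (E0 + 1) * N⁻¹) * y t
          + A * Real.sqrt K4 * Real.sqrt (E0 + 1) * N⁻¹ * y t := by
          refine add_le_add ?_ (t2.trans ?_)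
          · rw [mul_add A (β t) X]
            refine mul_le_mul (by linarith) hzP hzn ?_
            positivity
          · exact mul_le_mul_of_nonneg_left hPy (by positivity)
      _ = _ := by rw [hε, hq0]; ring
  · -- closing
    have h1 : A * ∫ t in Ioo 0 T, β t ≤ Real.log N := by
      calc A * ∫ t in Ioo 0 T, β t ≤ A * (A⁻¹ * Real.log N) := mul_le_mul_of_nonneg_left hβI hA.le
        _ = Real.log N := by rw [← mul_assoc, mul_inv_cancel₀ hA.ne', one_mul]
    have h2 : Real.exp (A * (∫ t in Ioo 0 T, β t) + ε * T) < N * 2 := by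
      rw [Real.exp_add]
      have h3 : Real.exp (A * ∫ t in Ioo 0 T, β t) ≤ N := by
        rw [← Real.exp_log hN0]
        exact Real.exp_le_exp.2 h1
      have h4 : Real.exp (ε * T) < 2 := by
        rw [← Real.exp_log (show (0 : ℝ) < 2 by norm_num)]
        exact Real.exp_lt_exp.2 hεT
      exact mul_lt_mul' h3 h4 (Real.exp_pos _).le hN0
    calc y 0 * Real.exp (A * (∫ t in Ioo 0 T, β t) + ε * T)
        ≤ (2 * P) * Real.exp (A * (∫ t in Ioo 0 T, β t) + ε * T) :=
          mul_le_mul_of_nonneg_right hy0 (Real.exp_pos _).le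
      _ < (2 * P) * (N * 2) := by
          exact mul_lt_mul_of_pos_left h2 (by positivity)
      _ = Ym := by rw [hYm]; ring

end main

end Pool.Agent.R211.WN
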