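import Pool.Agent.R211.WN.Tri

/-!
The trilinear form with power weights and with ramps.
-/

set_option autoImplicit false

open Set Filter Topology MeasureTheory
open scoped ComplexConjugate ENNReal

namespace Pool.Agent.R211.WN

open Pool.Agent.Y302.Trunc (K3)
open Pool.Agent.Y302.Tri

/-- The sum of `h` over the ball of radius `r`. -/
noncomputable def sumB (h : K3 → ℝ) (r : ℝ) : ℝ := ∑' z, if kn z ≤ r then h z else 0

lemma summable_ball {h : K3 → ℝ} (hs : Summable h) (h0 : ∀ k, 0 ≤ h k) (r : ℝ) :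
    Summable fun z => if kn z ≤ r then h z else 0 :=
  Summable.of_nonneg_of_le (fun z => by split_ifs <;> simp [h0]) (fun z => by
    split_ifs
    · exact le_rfl
    · exact h0 z) hs

lemma sumB_nonneg {h : K3 → ℝ} (h0 : ∀ k, 0 ≤ h k) (r : ℝ) : 0 ≤ sumB h r :=
  tsum_nonneg fun z => by split_ifs <;> simp [h0]

lemma sumB_mono {h : K3 → ℝ} (hs : Summable h) (h0 : ∀ k, 0 ≤ h k) {r s : ℝ} (hrs : r ≤ s) :
    sumB h r ≤ sumB h s := by
  refine (summable_ball hs h0 r).tsum_le_tsum (fun z => ?_) (summable_ball hs h0 s)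
  split_ifs with h1 h2
  · exact le_rfl
  · exact absurd (h1.trans hrs) h2
  · exact h0 z
  · exact le_rfl

lemma sumB_le_tsum {h : K3 → ℝ} (hs : Summable h) (h0 : ∀ k, 0 ≤ h k) (r : ℝ) :
    sumB h r ≤ ∑' z, h z := by
  refine (summable_ball hs h0 r).tsum_le_tsum (fun z => ?_) hs
  split_ifs
  · exact le_rfl
  · exact h0 z

lemma low_eq {h : K3 → ℝ} (hs : Summable h) (h0 : ∀ k, 0 ≤ h k) (y : K3) :
    low (fun k => ENNReal.ofReal (h k)) y = ENNReal.ofReal (sumB h (kn y)) := by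
  unfold low sumB
  rw [ENNReal.ofReal_tsum_of_nonneg (fun z => by split_ifs <;> simp [h0])
    (summable_ball hs h0 _)]
  refine tsum_congr fun z => ?_
  split_ifs <;> simp

lemma bs_eq {h g : K3 → ℝ} (hh : ∀ k, 0 ≤ h k) (hg : ∀ k, 0 ≤ g k) {x : K3 × K3}
    (h1 : kn (x.1 - x.2) ≤ kn x.1) (h2 : kn (x.1 - x.2) ≤ kn x.2) :
    bs (fun k => ENNReal.ofReal (h k)) (fun k => ENNReal.ofReal (g k)) x
      = ENNReal.ofReal (h (x.1 - x.2) * (g x.1 * g x.2)) := by
  unfold bs
  rw [if_pos ⟨h1, h2⟩, ENNReal.ofReal_mul (hh _), ENNReal.ofReal_mul (hg _)]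

/-- The real version of the estimate. -/
theorem tri_real {a : Fin 3 → K3 → ℂ} (ha : Reg a) {w h g b : K3 → ℝ} {C : ℝ}
    (hC : 0 ≤ C) (hh : ∀ k, 0 ≤ h k) (hg : ∀ k, 0 ≤ g k) (hge : ∀ k, g (-k) = g k)
    (h1 : ∀ k q, kn (k - q) ≤ kn k → kn (k - q) ≤ kn q → |w k - w q|
        * (min (kn k) (kn q) * (nv a (k - q) * (nv a k * nv a q))) ≤ C * (h (k - q) * (g k * g q)))
    (h2 : ∀ k q, kn q ≤ kn k → kn q ≤ kn (k - q) → |w k - w q|
        * (min (kn k) (kn q) * (nv a (k - q) * (nv a k * nv a q))) ≤ C * (h q * (g k * g (k - q))))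
    (hw : Summable fun k => |w k| * nv a k) (hhs : Summable h)
    (hb : ∀ y, g y ^ 2 * sumB h (kn y) ≤ b y) (hbs : Summable b) :
    |∑' x : K3 × K3, w x.1 * (xx a x).im| ≤ 3 * C * ∑' y, b y := by
  have hb0 : ∀ y, 0 ≤ b y := fun y =>
    (mul_nonneg (sq_nonneg _) (sumB_nonneg hh _)).trans (hb y)
  refine tri_bound ha (h := fun k => ENNReal.ofReal (h k)) (g := fun k => ENNReal.ofReal (g k)) hC
    (tsum_nonneg hb0) (fun k q => ?_) (summable_w ha hw) ?_
  · have hsw : kn (q - k) = kn (k - q) := kn_sub_comm q k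
    have hnsw : nv a (q - k) = nv a (k - q) := by rw [← nv_neg ha (q - k), neg_sub]
    have hgsw : g (q - k) = g (k - q) := by rw [← hge (q - k), neg_sub]
    have key : kn (k - q) ≤ kn k ∧ kn (k - q) ≤ kn q ∨ kn q ≤ kn k ∧ kn q ≤ kn (k - q) ∨
        kn k ≤ kn (k - q) ∧ kn k ≤ kn q := by
      rcases le_total (kn (k - q)) (kn k) with c1 | c1
      · rcases le_total (kn (k - q)) (kn q) with c2 | c2
        · exact Or.inl ⟨c1, c2⟩
        · exact Or.inr (Or.inl ⟨c2.trans c1, c2⟩)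
      · rcases le_total (kn k) (kn q) with c2 | c2
        · exact Or.inr (Or.inr ⟨c1, c2⟩)
        · exact Or.inr (Or.inl ⟨c2, c2.trans c1⟩)
    rcases key with ⟨c1, c2⟩ | ⟨c1, c2⟩ | ⟨c1, c2⟩
    · calc _ ≤ ENNReal.ofReal (C * (h (k - q) * (g k * g q))) :=
            ENNReal.ofReal_le_ofReal (h1 k q c1 c2)
        _ = ENNReal.ofReal C * bs (fun k => ENNReal.ofReal (h k)) (fun k => ENNReal.ofReal (g k))
              (k, q) := by
            rw [bs_eq hh hg (x := (k, q)) c1 c2, ← ENNReal.ofReal_mul hC]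
        _ ≤ _ := by gcongr; exact le_self_add
    · have e : (e2 (k, q)).1 - (e2 (k, q)).2 = q := by
        show k - (k - q) = q
        abel
      calc _ ≤ ENNReal.ofReal (C * (h q * (g k * g (k - q)))) :=
            ENNReal.ofReal_le_ofReal (h2 k q c1 c2)
        _ = ENNReal.ofReal C * bs (fun k => ENNReal.ofReal (h k)) (fun k => ENNReal.ofReal (g k))
              (e2 (k, q)) := by
            rw [bs_eq hh hg (x := e2 (k, q)) (by rw [e]; exact c1) (by rw [e]; exact c2), e,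
              ← ENNReal.ofReal_mul hC]
            rfl
        _ ≤ _ := by
            gcongr
            exact le_self_add.trans le_add_self
    · have e : (e3 (k, q)).1 - (e3 (k, q)).2 = k := by
        show (k - q) - (-q) = k
        abel
      have h3 := h2 q k c2 (by rw [hsw]; exact c1)
      rw [abs_sub_comm, min_comm, hnsw, hgsw] at h3
      calc _ ≤ ENNReal.ofReal (C * (h k * (g q * g (k - q)))) := by
            refine ENNReal.ofReal_le_ofReal (le_trans (le_of_eq ?_) h3)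
            ring
        _ = ENNReal.ofReal C * bs (fun k => ENNReal.ofReal (h k)) (fun k => ENNReal.ofReal (g k))
              (e3 (k, q)) := by
            rw [bs_eq hh hg (x := e3 (k, q)) (by rw [e]; exact c1)
              (by rw [e]; show kn k ≤ kn (-q); rw [kn_neg]; exact c2), e,
              ← ENNReal.ofReal_mul hC]
            congr 2
            show _ = h k * (g (k - q) * g (-q))
            rw [hge]
            ring
        _ ≤ _ := by
            gcongr
            exact le_add_self.trans le_add_self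
  · rw [ENNReal.ofReal_tsum_of_nonneg hb0 hbs]
    refine ENNReal.tsum_le_tsum fun y => ?_
    rw [low_eq hhs hh, ← ENNReal.ofReal_pow (hg y), ← ENNReal.ofReal_mul (sq_nonneg _)]
    exact ENNReal.ofReal_le_ofReal (hb y)

/-- The strain of the modes in the ball of radius `r`. -/
noncomputable def strA (a : Fin 3 → K3 → ℂ) (r : ℝ) : ℝ := sumB (fun k => kn k * nv a k) r

lemma summable_nv {a : Fin 3 → K3 → ℂ} (ha : Reg a) : Summable (nv a) :=
  Summable.of_nonneg_of_le (nv_nonneg a) (nv_le_sz a) ha.sz0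

lemma summable_knnv {a : Fin 3 → K3 → ℂ} (ha : Reg a) : Summable fun k => kn k * nv a k :=
  Summable.of_nonneg_of_le (fun k => mul_nonneg (kn_nonneg k) (nv_nonneg a k))
    (fun k => mul_le_mul (kn_le_N1 k) (nv_le_sz a k) (nv_nonneg _ _) (N1_nonneg k)) ha.sz1

lemma knnv_nonneg (a : Fin 3 → K3 → ℂ) (k : K3) : 0 ≤ kn k * nv a k :=
  mul_nonneg (kn_nonneg k) (nv_nonneg a k)

lemma strA_nonneg (a : Fin 3 → K3 → ℂ) (r : ℝ) : 0 ≤ strA a r :=
  sumB_nonneg (knnv_nonneg a) r

lemma pow_diff (n : ℕ) {K Q : ℝ} (hQ : 0 ≤ Q) (hQK : Q ≤ K) :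
    (K ^ n - Q ^ n) * K ≤ n * K ^ n * (K - Q) := by
  have hK : 0 ≤ K := hQ.trans hQK
  induction n with
  | zero => simp
  | succ n ih =>
    have h1 : Q ^ n ≤ K ^ n := pow_le_pow_left₀ hQ hQK n
    have h2 : 0 ≤ K * (K - Q) := mul_nonneg hK (sub_nonneg.2 hQK)
    have e : (K ^ (n + 1) - Q ^ (n + 1)) * K = K * ((K ^ n - Q ^ n) * K) + K * (K - Q) * Q ^ n := by
      ring
    rw [e]
    push_cast
    calc K * ((K ^ n - Q ^ n) * K) + K * (K - Q) * Q ^ n
        ≤ K * (n * K ^ n * (K - Q)) + K * (K - Q) * K ^ n :=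
          add_le_add (mul_le_mul_of_nonneg_left ih hK) (mul_le_mul_of_nonneg_left h1 h2)
      _ = _ := by ring

/-- The power weight: the case of a small difference. -/
lemma pow_case1 (s : ℕ) {K Q P : ℝ} (hK : 0 ≤ K) (hQ : 0 ≤ Q) (hPK : P ≤ K) (hPQ : P ≤ Q)
    (hd : |K - Q| ≤ P) : |K ^ (2 * s) - Q ^ (2 * s)| * min K Q
      ≤ (2 * s * 2 ^ s : ℝ) * (P * (K ^ s * Q ^ s)) := by
  wlog h : Q ≤ K generalizing K Q with H
  · have := H hQ hK hPQ hPK (by rw [abs_sub_comm]; exact hd) (not_le.1 h).le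
    rw [abs_sub_comm, min_comm]
    calc _ ≤ _ := this
      _ = _ := by ring
  have hd' := (abs_le.1 hd).2
  have h2 : K ≤ 2 * Q := by linarith
  have h3 := pow_diff (2 * s) hQ h
  have h4 : Q ^ (2 * s) ≤ K ^ (2 * s) := pow_le_pow_left₀ hQ h _
  rw [abs_of_nonneg (sub_nonneg.2 h4), min_eq_right h]
  have h5 : K ^ s ≤ 2 ^ s * Q ^ s := by
    rw [← mul_pow]
    exact pow_le_pow_left₀ hK h2 s
  have h6 : K ^ (2 * s) ≤ 2 ^ s * (K ^ s * Q ^ s) := by
    rw [two_mul, pow_add]
    calc K ^ s * K ^ s ≤ K ^ s * (2 ^ s * Q ^ s) :=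
          mul_le_mul_of_nonneg_left h5 (pow_nonneg hK s)
      _ = _ := by ring
  have hP : 0 ≤ P := (abs_nonneg _).trans hd
  calc (K ^ (2 * s) - Q ^ (2 * s)) * Q ≤ (K ^ (2 * s) - Q ^ (2 * s)) * K :=
        mul_le_mul_of_nonneg_left h (sub_nonneg.2 h4)
    _ ≤ (2 * s : ℕ) * K ^ (2 * s) * (K - Q) := h3
    _ ≤ (2 * s : ℕ) * (2 ^ s * (K ^ s * Q ^ s)) * P := by
        refine mul_le_mul (mul_le_mul_of_nonneg_left h6 (Nat.cast_nonneg _)) hd'
          (sub_nonneg.2 h) (by positivity)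
    _ = _ := by push_cast; ring

/-- The power weight: the case of a small frequency `Q`. -/
lemma pow_case2 {s : ℕ} (hs : 1 ≤ s) {K Q P : ℝ} (hQ : 0 ≤ Q) (hQK : Q ≤ K)
    (hQP : Q ≤ P) (hK : K ≤ P + Q) : |K ^ (2 * s) - Q ^ (2 * s)| * min K Q
      ≤ (2 * s * 2 ^ s : ℝ) * (Q * (K ^ s * P ^ s)) := by
  have hK0 : 0 ≤ K := hQ.trans hQK
  have hP0 : 0 ≤ P := hQ.trans hQP
  have h4 : Q ^ (2 * s) ≤ K ^ (2 * s) := pow_le_pow_left₀ hQ hQK _
  rw [abs_of_nonneg (sub_nonneg.2 h4), min_eq_right hQK]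
  have h5 : K ^ s ≤ 2 ^ s * P ^ s := by
    rw [← mul_pow]
    exact pow_le_pow_left₀ hK0 (by linarith) s
  have h6 : K ^ (2 * s) - Q ^ (2 * s) ≤ 2 ^ s * (K ^ s * P ^ s) := by
    have : 0 ≤ Q ^ (2 * s) := pow_nonneg hQ _
    rw [two_mul, pow_add K]
    calc K ^ s * K ^ s - Q ^ (s + s) ≤ K ^ s * K ^ s := by rw [two_mul] at this; linarith
      _ ≤ K ^ s * (2 ^ s * P ^ s) := mul_le_mul_of_nonneg_left h5 (pow_nonneg hK0 s)
      _ = _ := by ring
  have hs1 : (1 : ℝ) ≤ 2 * s := by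
    have : (1 : ℝ) ≤ s := by exact_mod_cast hs
    linarith
  calc (K ^ (2 * s) - Q ^ (2 * s)) * Q ≤ (2 ^ s * (K ^ s * P ^ s)) * Q :=
        mul_le_mul_of_nonneg_right h6 hQ
    _ = 1 * (2 ^ s * (Q * (K ^ s * P ^ s))) := by ring
    _ ≤ (2 * s) * (2 ^ s * (Q * (K ^ s * P ^ s))) := by gcongr
    _ = _ := by ring

/-- The trilinear form with the weight `|k|^(2 s)`. -/
theorem tri_pow {a : Fin 3 → K3 → ℂ} (ha : Reg a) {s : ℕ} (hs : 1 ≤ s)
    (hw : Summable fun k => kn k ^ (2 * s) * nv a k)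
    (hb : Summable fun k => strA a (kn k) * (kn k ^ (2 * s) * nv a k ^ 2)) :
    |∑' x : K3 × K3, kn x.1 ^ (2 * s) * (xx a x).im|
      ≤ 3 * (2 * s * 2 ^ s) * ∑' k, strA a (kn k) * (kn k ^ (2 * s) * nv a k ^ 2) := by
  refine tri_real ha (w := fun k => kn k ^ (2 * s)) (h := fun k => kn k * nv a k)
    (g := fun k => kn k ^ s * nv a k) (C := 2 * s * 2 ^ s) (by positivity) (knnv_nonneg a)
    (fun k => mul_nonneg (pow_nonneg (kn_nonneg k) s) (nv_nonneg a k))
    (fun k => by rw [kn_neg, nv_neg ha]) ?_ ?_ ?_ (summable_knnv ha) (fun y => ?_) hb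
  · intro k q h1 h2
    have h := pow_case1 s (kn_nonneg k) (kn_nonneg q) h1 h2 (abs_kn_sub_le k q)
    have h3 : 0 ≤ nv a (k - q) * (nv a k * nv a q) :=
      mul_nonneg (nv_nonneg _ _) (mul_nonneg (nv_nonneg _ _) (nv_nonneg _ _))
    calc _ = (|kn k ^ (2 * s) - kn q ^ (2 * s)| * min (kn k) (kn q))
          * (nv a (k - q) * (nv a k * nv a q)) := by ring
      _ ≤ _ := mul_le_mul_of_nonneg_right h h3
      _ = _ := by ring
  · intro k q h1 h2
    have h := pow_case2 hs (kn_nonneg q) h1 h2 (kn_le_sub_add k q)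
    have h3 : 0 ≤ nv a (k - q) * (nv a k * nv a q) :=
      mul_nonneg (nv_nonneg _ _) (mul_nonneg (nv_nonneg _ _) (nv_nonneg _ _))
    calc _ = (|kn k ^ (2 * s) - kn q ^ (2 * s)| * min (kn k) (kn q))
          * (nv a (k - q) * (nv a k * nv a q)) := by ring
      _ ≤ _ := mul_le_mul_of_nonneg_right h h3
      _ = _ := by ring
  · refine hw.congr fun k => ?_
    rw [abs_of_nonneg (pow_nonneg (kn_nonneg k) _)]
  · refine le_of_eq ?_
    unfold strA
    ring

/-- The ramp from `r` to `2 r`. -/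
noncomputable def ramp (r : ℝ) (k : K3) : ℝ := max 0 (min 1 ((kn k - r) / r))

lemma ramp_nonneg (r : ℝ) (k : K3) : 0 ≤ ramp r k := le_max_left _ _

lemma ramp_le_one (r : ℝ) (k : K3) : ramp r k ≤ 1 := max_le zero_le_one (min_le_left _ _)

lemma ramp_zero {r : ℝ} (hr : 0 < r) {k : K3} (h : kn k ≤ r) : ramp r k = 0 := by
  unfold ramp
  refine max_eq_left ((min_le_right _ _).trans ?_)
  exact div_nonpos_of_nonpos_of_nonneg (by linarith) hr.le

lemma ramp_one {r : ℝ} (hr : 0 < r) {k : K3} (h : 2 * r ≤ kn k) : ramp r k = 1 := by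
  unfold ramp
  have h1 : 1 ≤ (kn k - r) / r := by
    rw [le_div_iff₀ hr]
    linarith
  rw [min_eq_left h1]
  norm_num

lemma ramp_neg (r : ℝ) (k : K3) : ramp r (-k) = ramp r k := by
  unfold ramp
  rw [kn_neg]

lemma ramp_sub_le {r : ℝ} (hr : 0 < r) (k q : K3) : |ramp r k - ramp r q| ≤ kn (k - q) / r := by
  unfold ramp
  refine (abs_max_sub_max_le_max _ _ _ _).trans ?_
  rw [sub_self, abs_zero]
  refine max_le (div_nonneg (kn_nonneg _) hr.le) ?_
  refine (abs_min_sub_min_le_max _ _ _ _).trans ?_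
  rw [sub_self, abs_zero]
  refine max_le (div_nonneg (kn_nonneg _) hr.le) ?_
  rw [← sub_div, abs_div, abs_of_pos hr, sub_sub_sub_cancel_right]
  exact div_le_div_of_nonneg_right (abs_kn_sub_le k q) hr.le

lemma ramp_diff_one (r : ℝ) (k q : K3) : |ramp r k - ramp r q| ≤ 1 := by
  rw [abs_le]
  have h1 := ramp_nonneg r k
  have h2 := ramp_le_one r k
  have h3 := ramp_nonneg r q
  have h4 := ramp_le_one r q
  constructor <;> linarith

/-- The energy of the modes outside of the ball of radius `r`. -/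
noncomputable def tailE (a : Fin 3 → K3 → ℂ) (r : ℝ) : ℝ := ∑' k, if r ≤ kn k then nv a k ^ 2 else 0

lemma summable_nv2 {a : Fin 3 → K3 → ℂ} (ha : Reg a) : Summable fun k => nv a k ^ 2 := by
  refine Summable.of_nonneg_of_le (fun k => sq_nonneg _) (fun k => ?_)
    ((summable_nv ha).mul_left (∑' m, nv a m))
  rw [sq]
  exact mul_le_mul_of_nonneg_right ((summable_nv ha).le_tsum k fun _ _ => nv_nonneg _ _)
    (nv_nonneg _ _)

/-- The flux through a ramp. -/
theorem tri_ramp {a : Fin 3 → K3 → ℂ} (ha : Reg a) {r : ℝ} (hr : 0 < r) :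
    |∑' x : K3 × K3, ramp r x.1 * (xx a x).im| ≤ 6 * (strA a (2 * r) * tailE a (r / 2)) := by
  set h : K3 → ℝ := fun k => if kn k ≤ 2 * r then kn k * nv a k else 0 with hh
  set g : K3 → ℝ := fun k => if r / 2 ≤ kn k then nv a k else 0 with hg
  have hh0 : ∀ k, 0 ≤ h k := fun k => by
    simp only [hh]
    split_ifs
    · exact knnv_nonneg a k
    · exact le_rfl
  have hg0 : ∀ k, 0 ≤ g k := fun k => by
    simp only [hg]
    split_ifs
    · exact nv_nonneg a k
    · exact le_rfl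
  have hhs : Summable h := summable_ball (summable_knnv ha) (knnv_nonneg a) _
  have hgs : Summable fun k => g k ^ 2 := by
    refine Summable.of_nonneg_of_le (fun k => sq_nonneg _) (fun k => ?_) (summable_nv2 ha)
    simp only [hg]
    split_ifs
    · exact le_rfl
    · rw [zero_pow two_ne_zero]; exact sq_nonneg _
  have key := tri_real ha (w := ramp r) (h := h) (g := g) (C := 2)
    (b := fun y => strA a (2 * r) * g y ^ 2) (by norm_num) hh0 hg0 (fun k => ?_) ?_ ?_ ?_ hhs
    (fun y => ?_) (hgs.mul_left _)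
  · refine key.trans (le_of_eq ?_)
    rw [tsum_mul_left]
    unfold tailE
    have : ∀ k, g k ^ 2 = if r / 2 ≤ kn k then nv a k ^ 2 else 0 := by
      intro k
      simp only [hg]
      split_ifs <;> simp
    simp only [this]
    ring
  · simp only [hg, kn_neg, nv_neg ha]
  · intro k q h1 h2
    by_cases hz : ramp r k = ramp r q
    · rw [hz, sub_self, abs_zero, zero_mul]
      exact mul_nonneg (by norm_num) (mul_nonneg (hh0 _) (mul_nonneg (hg0 _) (hg0 _)))
    have hd := abs_le.1 (abs_kn_sub_le k q)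
    have hmax : r < max (kn k) (kn q) := by
      by_contra hcon
      push Not at hcon
      have c1 := (le_max_left (kn k) (kn q)).trans hcon
      have c2 := (le_max_right (kn k) (kn q)).trans hcon
      exact hz (by rw [ramp_zero hr c1, ramp_zero hr c2])
    have hmin : min (kn k) (kn q) < 2 * r := by
      by_contra hcon
      push Not at hcon
      have c1 := hcon.trans (min_le_left (kn k) (kn q))
      have c2 := hcon.trans (min_le_right (kn k) (kn q))
      exact hz (by rw [ramp_one hr c1, ramp_one hr c2])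
    have k1 : r / 2 ≤ kn k := by
      rcases lt_max_iff.1 hmax with h5 | h5 <;> linarith
    have k2 : r / 2 ≤ kn q := by
      rcases lt_max_iff.1 hmax with h5 | h5 <;> linarith
    have k3 : kn (k - q) ≤ 2 * r := (le_min h1 h2).trans hmin.le
    simp only [hh, hg, if_pos k1, if_pos k2, if_pos k3]
    have h6 : |ramp r k - ramp r q| * min (kn k) (kn q) ≤ 2 * kn (k - q) := by
      calc |ramp r k - ramp r q| * min (kn k) (kn q) ≤ (kn (k - q) / r) * (2 * r) :=
            mul_le_mul (ramp_sub_le hr k q) hmin.le (le_min (kn_nonneg _) (kn_nonneg _))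
              (div_nonneg (kn_nonneg _) hr.le)
        _ = _ := by field_simp
    have h3 : 0 ≤ nv a (k - q) * (nv a k * nv a q) :=
      mul_nonneg (nv_nonneg _ _) (mul_nonneg (nv_nonneg _ _) (nv_nonneg _ _))
    calc _ = (|ramp r k - ramp r q| * min (kn k) (kn q))
          * (nv a (k - q) * (nv a k * nv a q)) := by ring
      _ ≤ _ := mul_le_mul_of_nonneg_right h6 h3
      _ = _ := by ring
  · intro k q h1 h2
    by_cases hz : ramp r k = ramp r q
    · rw [hz, sub_self, abs_zero, zero_mul]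
      exact mul_nonneg (by norm_num) (mul_nonneg (hh0 _) (mul_nonneg (hg0 _) (hg0 _)))
    have k1 : r < kn k := by
      by_contra hcon
      push Not at hcon
      exact hz (by rw [ramp_zero hr hcon, ramp_zero hr (h1.trans hcon)])
    have k2 : kn q < 2 * r := by
      by_contra hcon
      push Not at hcon
      exact hz (by rw [ramp_one hr hcon, ramp_one hr (hcon.trans h1)])
    have k3 : r / 2 ≤ kn (k - q) := by
      have := kn_le_sub_add k q
      linarith
    simp only [hh, hg, if_pos (show r / 2 ≤ kn k by linarith), if_pos k2.le, if_pos k3]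
    have h6 : |ramp r k - ramp r q| * min (kn k) (kn q) ≤ 2 * kn q := by
      rw [min_eq_right h1]
      have := mul_le_mul_of_nonneg_right (ramp_diff_one r k q) (kn_nonneg q)
      linarith [kn_nonneg q]
    have h3 : 0 ≤ nv a (k - q) * (nv a k * nv a q) :=
      mul_nonneg (nv_nonneg _ _) (mul_nonneg (nv_nonneg _ _) (nv_nonneg _ _))
    calc _ = (|ramp r k - ramp r q| * min (kn k) (kn q))
          * (nv a (k - q) * (nv a k * nv a q)) := by ring
      _ ≤ _ := mul_le_mul_of_nonneg_right h6 h3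
      _ = _ := by ring
  · refine Summable.of_nonneg_of_le (fun k => mul_nonneg (abs_nonneg _) (nv_nonneg _ _))
      (fun k => ?_) (summable_nv ha)
    rw [abs_of_nonneg (ramp_nonneg r k)]
    have := mul_le_mul_of_nonneg_right (ramp_le_one r k) (nv_nonneg a k)
    linarith
  · rw [mul_comm]
    refine mul_le_mul_of_nonneg_right ?_ (sq_nonneg _)
    exact sumB_le_tsum hhs hh0 _

/-- The flux of the energy vanishes. -/
theorem tri_one {a : Fin 3 → K3 → ℂ} (ha : Reg a) : ∑' x : K3 × K3, (xx a x).im = 0 := by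
  have h1 : ∑' x : K3 × K3, (xx a x).im = -∑' x : K3 × K3, (xx a x).im := by
    conv_lhs => rw [← (Equiv.prodComm K3 K3).tsum_eq (fun x : K3 × K3 => (xx a x).im)]
    rw [← tsum_neg]
    refine tsum_congr fun x => ?_
    show (xx a x.swap).im = _
    rw [im_swap ha]
  linarith

end Pool.Agent.R211.WN
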